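import Pool.Agent.W575.Hyp6.Free

/-!
# Torsion-freeness
-/

namespace Pool.Agent.W575.Hyp6

open Matrix

theorem actR_smul (w : G) (c : ℝ) (x : Fin 7 → ℝ) : actR w (c • x) = c • actR w x := by
  unfold actR
  exact mulVec_smul _ _ _

/-- The subgroup is torsion-free. -/
theorem Gam_torsion_free (γ : G) (hγ : γ ∈ Gam) (h : IsOfFinOrder γ) : γ = 1 := by
  obtain ⟨n, hn, hpow⟩ := isOfFinOrder_iff_pow_eq_one.1 h
  set Y : Fin 7 → ℤ := ∑ i ∈ Finset.range n, act (γ ^ i) p with hY
  have hfix : act γ Y = Y := by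
    rw [hY, act_sum]
    have h1 : ∀ i ∈ Finset.range n, act γ (act (γ ^ i) p) = act (γ ^ (i + 1)) p := by
      intro i _
      rw [act_pow_succ]
    rw [Finset.sum_congr rfl h1]
    have h2 := Finset.sum_range_succ (fun i => act (γ ^ i) p) n
    have h3 := Finset.sum_range_succ' (fun i => act (γ ^ i) p) n
    rw [h2, hpow, pow_zero] at h3
    exact (add_right_cancel h3).symm
  have hne : (Finset.range n).Nonempty := Finset.nonempty_range_iff.2 (by omega)
  have hX : ∀ i, X (act (γ ^ i) p) := fun i => X_p.act _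
  have hneg : ∀ i j, B (act (γ ^ i) p) (act (γ ^ j) p) < 0 := by
    intro i j
    apply B_neg_of_future _ _ (hX i).pos _ (hX j).pos
    · rw [(hX j).norm]; norm_num
    · rw [(hX i).norm]; norm_num
  have hYY : B Y Y < 0 := by
    rw [hY, B_sum_left]
    apply Finset.sum_neg _ hne
    intro i _
    rw [B_comm, B_sum_left]
    apply Finset.sum_neg _ hne
    intro j _
    exact hneg j i
  set q : ℝ := -((B Y Y : ℤ) : ℝ) with hq
  have hq0 : 0 < q := by
    have : ((B Y Y : ℤ) : ℝ) < 0 := by exact_mod_cast hYY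
    linarith
  have hs : 0 < Real.sqrt q := Real.sqrt_pos.2 hq0
  refine Gam_free γ hγ ((Real.sqrt q)⁻¹ • cst Y) ?_ ?_
  · rw [B_smul_left, B_smul_right, B_cst]
    have h1 : Real.sqrt q * Real.sqrt q = q := Real.mul_self_sqrt hq0.le
    have h2 : ((B Y Y : ℤ) : ℝ) = -q := by rw [hq]; ring
    rw [h2]
    field_simp
    rw [sq, h1]
  · rw [actR_smul, ← cst_act, hfix]

end Pool.Agent.W575.Hyp6
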