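import Pool.Agent.W575.Hyp6.Group

/-!
# Hyperbolic 6-space, the action of the positive Lorentz group, and hyperbolic volume
-/

namespace Pool.Agent.W575.Hyp6

open Matrix MeasureTheory

theorem J_map' : (J ℤ).map (Int.cast : ℤ → ℝ) = J ℝ := by
  ext i j
  fin_cases i <;> fin_cases j <;> simp [J]

theorem map_mul'' (A C : Matrix (Fin 7) (Fin 7) ℤ) :
    (A * C).map (Int.cast : ℤ → ℝ) = A.map (Int.cast : ℤ → ℝ) * C.map (Int.cast : ℤ → ℝ) := by
  have := Matrix.map_mul (L := A) (M := C) (f := Int.castRingHom ℝ)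
  simpa using this

theorem B_actR' (w : G) (x y : Fin 7 → ℝ) : B (actR w x) (actR w y) = B x y := by
  have h := congrArg (fun M : Matrix (Fin 7) (Fin 7) ℤ => M.map (Int.cast : ℤ → ℝ)) w.2.1
  simp only [map_mul'', J_map'] at h
  exact B_mulVec _ h x y

theorem actR_mul' (a b : G) (x : Fin 7 → ℝ) : actR (a * b) x = actR a (actR b x) := by
  simp only [actR, mulVec_mulVec]
  congr 1
  rw [← map_mul'']
  rfl

theorem actR_one' (x : Fin 7 → ℝ) : actR 1 x = x := by
  unfold actR
  have : ((1 : G).1.1.map (Int.cast : ℤ → ℝ)) = 1 := by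
    ext i j
    simp [Matrix.one_apply]
  rw [this, one_mulVec]

theorem actR_future (w : G) (x : Fin 7 → ℝ) (hx : B x x < 0) (hx0 : 0 < x 0) :
    0 < (actR w x) 0 := by
  set E : Fin 7 → ℝ := Pi.single 0 1 with hE
  have hBE : ∀ z : Fin 7 → ℝ, B z E = - z 0 := by
    intro z; simp [B, hE]
  have hcol : (actR w⁻¹ E) 0 = (((w⁻¹).1.1 0 0 : ℤ) : ℝ) := by
    simp [actR, hE]
  have h1 : B x (actR w⁻¹ E) < 0 := by
    apply B_neg_of_future _ _ hx0 hx
    · rw [hcol]
      exact_mod_cast (w⁻¹).2.2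
    · rw [B_actR', hBE]; simp [hE]
  rw [← B_actR' w, ← actR_mul', mul_inv_cancel, actR_one', hBE] at h1
  linarith

/-- Hyperbolic 6-space, hyperboloid model. -/
def H6 : Type := {x : Fin 7 → ℝ // B x x = -1 ∧ 0 < x 0}

noncomputable instance : MeasurableSpace H6 := inferInstanceAs (MeasurableSpace (Subtype _))

/-- The action of the integral positive Lorentzian matrices on hyperbolic 6-space. -/
noncomputable instance : MulAction PosLor H6 where
  smul w x := ⟨actR w x.1, by
    rw [B_actR']; exact x.2.1, actR_future w x.1 (by rw [x.2.1]; norm_num) x.2.2⟩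
  one_smul x := Subtype.ext (actR_one' x.1)
  mul_smul a b x := Subtype.ext (actR_mul' a b x.1)

theorem smul_val (w : G) (x : H6) : (w • x).1 = actR w x.1 := rfl

/-- Hyperboloid coordinates: the point of hyperbolic space over `y ∈ ℝ⁶`. -/
noncomputable def pt (y : Fin 6 → ℝ) : H6 :=
  ⟨![Real.sqrt (1 + ∑ i, y i ^ 2), y 0, y 1, y 2, y 3, y 4, y 5], by
    have h : 0 ≤ 1 + ∑ i, y i ^ 2 := by positivity
    have h2 := Real.mul_self_sqrt h
    simp only [B, Matrix.cons_val]
    rw [h2, Fin.sum_univ_six]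
    ring, by
    simp only [Matrix.cons_val]
    positivity⟩

/-- Hyperbolic volume: in the coordinates `y ∈ ℝ⁶` it has density `1 / sqrt (1 + |y|²)`. -/
noncomputable def hypVol : Measure H6 :=
  ((volume : Measure (Fin 6 → ℝ)).withDensity
    (fun y => ENNReal.ofReal (1 / Real.sqrt (1 + ∑ j, y j ^ 2)))).map pt

end Pool.Agent.W575.Hyp6
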