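import Pool.Agent.W575.Hyp6.Gamma2

/-!
# Enumeration of sets of pairwise orthogonal facets
-/

namespace Pool.Agent.W575.Hyp6

open Matrix

/-- All sorted cliques of `k` pairwise skew facets (the first number bounds the recursion). -/
def cl : ℕ → ℕ → List (Fin 27) → List (List (Fin 27))
  | _, 0, _ => [[]]
  | 0, _ + 1, _ => []
  | _ + 1, _ + 1, [] => []
  | n + 1, k + 1, c :: cs => (cl n k (cs.filter (skew c))).map (fun l => c :: l) ++ cl n (k + 1) cs

theorem mem_cl : ∀ (n k : ℕ) (cs : List (Fin 27)), cs.length ≤ n → ∀ l : List (Fin 27),
    l ∈ cl n k cs ↔ l.Sublist cs ∧ l.Pairwise (fun a b => skew a b = true) ∧ l.length = k := by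
  intro n
  induction n with
  | zero =>
    intro k cs hcs l
    have hcs' : cs = [] := List.length_eq_zero_iff.1 (by omega)
    subst hcs'
    cases k with
    | zero =>
      simp only [cl, List.mem_singleton, List.sublist_nil, List.length_eq_zero_iff]
      constructor
      · rintro rfl; simp
      · rintro ⟨h, _⟩; exact h
    | succ k =>
      simp only [cl, List.not_mem_nil, List.sublist_nil, false_iff]
      rintro ⟨rfl, _, h⟩
      simp at h
  | succ n ih =>
    intro k cs hcs l
    cases k with
    | zero =>
      simp only [cl, List.mem_singleton, List.length_eq_zero_iff]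
      constructor
      · rintro rfl; simp
      · rintro ⟨_, _, h⟩; exact h
    | succ k =>
      cases cs with
      | nil =>
        simp only [cl, List.not_mem_nil, List.sublist_nil, false_iff]
        rintro ⟨rfl, _, h⟩
        simp at h
      | cons c cs =>
        have hlen : cs.length ≤ n := by simpa using hcs
        have hlen' : (cs.filter (skew c)).length ≤ n :=
          le_trans (List.length_filter_le _ _) hlen
        simp only [cl, List.mem_append, List.mem_map]
        rw [List.sublist_cons_iff, ih (k + 1) cs hlen]
        constructor
        · rintro (⟨l', hl', rfl⟩ | ⟨h1, h2, h3⟩)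
          · rw [ih k _ hlen'] at hl'
            obtain ⟨h1, h2, h3⟩ := hl'
            refine ⟨Or.inr ⟨l', rfl, h1.trans List.filter_sublist⟩, ?_, by simp [h3]⟩
            rw [List.pairwise_cons]
            refine ⟨fun a ha => ?_, h2⟩
            exact (List.mem_filter.1 (h1.subset ha)).2
          · exact ⟨Or.inl h1, h2, h3⟩
        · rintro ⟨h1 | ⟨r, rfl, hr⟩, h2, h3⟩
          · exact Or.inr ⟨h1, h2, h3⟩
          · left
            rw [List.pairwise_cons] at h2
            refine ⟨r, ?_, rfl⟩
            rw [ih k _ hlen']
            refine ⟨?_, h2.2, by simpa using h3⟩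
            have : r.filter (skew c) = r := List.filter_eq_self.2 h2.1
            rw [← this]
            exact hr.filter _

theorem nodup_cl : ∀ (n k : ℕ) (cs : List (Fin 27)), cs.length ≤ n → cs.Nodup →
    (cl n k cs).Nodup := by
  intro n
  induction n with
  | zero =>
    intro k cs _ _
    cases k <;> simp [cl]
  | succ n ih =>
    intro k cs hcs hnd
    cases k with
    | zero => simp [cl]
    | succ k =>
      cases cs with
      | nil => simp [cl]
      | cons c cs =>
        have hlen : cs.length ≤ n := by simpa using hcs
        have hlen' : (cs.filter (skew c)).length ≤ n :=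
          le_trans (List.length_filter_le _ _) hlen
        rw [List.nodup_cons] at hnd
        simp only [cl]
        rw [List.nodup_append]
        refine ⟨?_, ih _ _ hlen hnd.2, ?_⟩
        · apply List.Nodup.map
          · intro a b h
            simpa using h
          · exact ih _ _ hlen' (hnd.2.filter _)
        · intro a ha b hb hab
          subst hab
          obtain ⟨l', _, rfl⟩ := List.mem_map.1 ha
          have := ((mem_cl n (k + 1) cs hlen _).1 hb).1.subset (List.mem_cons_self)
          exact hnd.1 this

set_option maxRecDepth 100000 in
theorem length_cl : (cl 27 6 (List.finRange 27)).length = 72 := by decide +kernel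

/-- All ordered tuples of six pairwise skew facets. -/
def tuples : List (List (Fin 27)) := (cl 27 6 (List.finRange 27)).flatMap List.permutations

theorem clique_nodup {l : List (Fin 27)}
    (hl : l.Pairwise (fun a b => skew a b = true)) : l.Nodup := by
  apply hl.imp
  intro a b h hab
  subst hab
  rw [skew_irrefl] at h
  exact absurd h (by decide)

/-- The sorted version of a clique. -/
theorem sorted_perm {l : List (Fin 27)} (hl : l.Nodup) :
    ((List.finRange 27).filter (fun x => decide (x ∈ l))).Perm l := by
  rw [List.perm_ext_iff_of_nodup ((List.nodup_finRange 27).filter _) hl]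
  intro a
  simp

theorem pairwise_of_clique {l t : List (Fin 27)}
    (hl : l.Pairwise (fun a b => skew a b = true)) (ht : t.Nodup) (hsub : ∀ x ∈ t, x ∈ l) :
    t.Pairwise (fun a b => skew a b = true) := by
  apply List.Pairwise.imp_of_mem _ ht
  intro a b ha hb hab
  have : Std.Symm (fun a b : Fin 27 => skew a b = true) := ⟨fun a b h => skew_symm a b h⟩
  exact hl.forall (hsub a ha) (hsub b hb) hab

theorem mem_tuples (l : List (Fin 27)) : l ∈ tuples ↔
    l.length = 6 ∧ l.Pairwise (fun a b => skew a b = true) := by
  simp only [tuples, List.mem_flatMap, List.mem_permutations]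
  constructor
  · rintro ⟨t, ht, hlt⟩
    rw [mem_cl 27 6 _ (by simp)] at ht
    refine ⟨hlt.length_eq.trans ht.2.2, ?_⟩
    exact pairwise_of_clique ht.2.1 (hlt.nodup_iff.2 (clique_nodup ht.2.1)) (fun x hx => hlt.subset hx)
  · rintro ⟨h1, h2⟩
    have hperm := sorted_perm (clique_nodup h2)
    refine ⟨_, ?_, hperm.symm⟩
    rw [mem_cl 27 6 _ (by simp)]
    exact ⟨List.filter_sublist, pairwise_of_clique h2 (hperm.nodup_iff.2 (clique_nodup h2))
      (fun x hx => hperm.subset hx), hperm.length_eq.trans h1⟩

theorem sorted_unique {s t : List (Fin 27)} (hs : s.Sublist (List.finRange 27))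
    (ht : t.Sublist (List.finRange 27)) (h : s.Perm t) : s = t := by
  have key : ∀ {r : List (Fin 27)}, r.Sublist (List.finRange 27) → r.Pairwise (· < ·) := by
    intro r hr
    exact (List.pairwise_lt_finRange 27).sublist hr
  exact List.Perm.eq_of_pairwise (fun a b _ _ h1 h2 => absurd (lt_trans h1 h2) (lt_irrefl a))
    (key hs) (key ht) h

theorem nodup_tuples : tuples.Nodup := by
  rw [tuples, List.nodup_flatMap]
  constructor
  · intro t ht
    rw [mem_cl 27 6 _ (by simp)] at ht
    exact List.nodup_permutations _ (clique_nodup ht.2.1)
  · apply List.Pairwise.imp_of_mem _ (nodup_cl 27 6 _ (by simp) (List.nodup_finRange 27))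
    intro a b ha hb hab
    rw [mem_cl 27 6 _ (by simp)] at ha hb
    simp only [Function.onFun, List.disjoint_left, List.mem_permutations]
    intro l h1 h2
    exact hab (sorted_unique ha.1 hb.1 (h1.symm.trans h2))

theorem length_tuples : tuples.length = 51840 := by
  rw [tuples, List.length_flatMap]
  have h : (cl 27 6 (List.finRange 27)).map (fun t => t.permutations.length) =
      List.replicate 72 720 := by
    rw [List.eq_replicate_iff]
    refine ⟨by rw [List.length_map, length_cl], ?_⟩
    intro b hb
    obtain ⟨t, ht, rfl⟩ := List.mem_map.1 hb
    rw [mem_cl 27 6 _ (by simp)] at ht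
    rw [List.length_permutations, ht.2.2]
    rfl
  rw [h]
  simp

/-- The check over all sorted cliques. -/
def chk (P : List (Fin 27) → Bool) : ℕ → List (Fin 27) → List (Fin 27) → Bool
  | 0, _, l => P l
  | _ + 1, [], l => P l
  | n + 1, c :: cs, l => chk P n cs l && chk P n (cs.filter (skew c)) (c :: l)

theorem chk_sound (P : List (Fin 27) → Bool) : ∀ (n : ℕ) (cs l : List (Fin 27)),
    chk P n cs l = true → cs.length ≤ n → ∀ t : List (Fin 27), t.Sublist cs →
    t.Pairwise (fun a b => skew a b = true) → P (t.reverse ++ l) = true := by
  intro n
  induction n with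
  | zero =>
    intro cs l h hn t ht _
    have : cs = [] := List.length_eq_zero_iff.1 (by omega)
    subst this
    rw [List.sublist_nil] at ht
    subst ht
    simpa [chk] using h
  | succ n ih =>
    intro cs l h hn t ht hp
    cases cs with
    | nil =>
      rw [List.sublist_nil] at ht
      subst ht
      simpa [chk] using h
    | cons c cs =>
      simp only [chk, Bool.and_eq_true] at h
      rw [List.sublist_cons_iff] at ht
      rcases ht with ht | ⟨r, rfl, hr⟩
      · exact ih cs l h.1 (by simpa using hn) t ht hp
      · rw [List.pairwise_cons] at hp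
        have h1 : r.Sublist (cs.filter (skew c)) := by
          have : r.filter (skew c) = r := List.filter_eq_self.2 hp.1
          rw [← this]
          exact hr.filter _
        have := ih (cs.filter (skew c)) (c :: l) h.2 (by
          have := List.length_filter_le (skew c) cs
          simp at hn
          omega) r h1 hp.2
        simpa using this

end Pool.Agent.W575.Hyp6
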