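import Pool.Agent.W575.Hyp6.Group

/-!
# The 27 facets of the right-angled polytope, and the combinatorial data
-/

namespace Pool.Agent.W575.Hyp6

open Matrix

/-- The 27 normal vectors of the facets. -/
def N : Fin 27 → Fin 7 → ℤ := ![
  ![0, -1, 0, 0, 0, 0, 0],
  ![0, 0, -1, 0, 0, 0, 0],
  ![0, 0, 0, -1, 0, 0, 0],
  ![0, 0, 0, 0, -1, 0, 0],
  ![0, 0, 0, 0, 0, -1, 0],
  ![0, 0, 0, 0, 0, 0, -1],
  ![2, 0, 1, 1, 1, 1, 1],
  ![2, 1, 0, 1, 1, 1, 1],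
  ![2, 1, 1, 0, 1, 1, 1],
  ![2, 1, 1, 1, 0, 1, 1],
  ![2, 1, 1, 1, 1, 0, 1],
  ![2, 1, 1, 1, 1, 1, 0],
  ![1, 1, 1, 0, 0, 0, 0],
  ![1, 1, 0, 1, 0, 0, 0],
  ![1, 1, 0, 0, 1, 0, 0],
  ![1, 1, 0, 0, 0, 1, 0],
  ![1, 1, 0, 0, 0, 0, 1],
  ![1, 0, 1, 1, 0, 0, 0],
  ![1, 0, 1, 0, 1, 0, 0],
  ![1, 0, 1, 0, 0, 1, 0],
  ![1, 0, 1, 0, 0, 0, 1],
  ![1, 0, 0, 1, 1, 0, 0],
  ![1, 0, 0, 1, 0, 1, 0],
  ![1, 0, 0, 1, 0, 0, 1],
  ![1, 0, 0, 0, 1, 1, 0],
  ![1, 0, 0, 0, 1, 0, 1],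
  ![1, 0, 0, 0, 0, 1, 1]]

/-- The base point (times 3). -/
def p : Fin 7 → ℤ := ![3, 1, 1, 1, 1, 1, 1]

/-- The adjacency table of the facets, packed in a natural number. -/
def skewTable : ℕ := 1358939355864451058283909526659026730327497264996723848343811080724323967709356216239132761774022201882875961409708826752820053810342984438792215896615537661145630447620115777418824303352667882805223183154306720353615998

/-- Two facets are distinct and orthogonal. -/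
def skew (f h : Fin 27) : Bool := Nat.testBit skewTable (27 * f.val + h.val)

/-- The permutation of the facets. -/
def gp : Fin 27 → Fin 27 := ![21, 18, 17, 4, 0, 5, 7, 8, 9, 16, 26, 15, 3, 2, 19, 12, 20, 1, 22, 13, 23, 24, 14, 25, 11, 6, 10]

/-- The labels of the facets. -/
def lam : Fin 27 → ℕ := ![1, 2, 4, 8, 16, 32, 35, 52, 54, 61, 58, 10, 5, 11, 23, 27, 57, 23, 11, 2, 46, 31, 4, 44, 18, 39, 58]

/-- The matrix of order eight. -/
def gM : Matrix (Fin 7) (Fin 7) ℤ := !![2, -1, -1, -1, 0, 0, 0; 0, 0, 0, 0, 0, 1, 0; 1, 0, -1, -1, 0, 0, 0; 1, -1, 0, -1, 0, 0, 0; 1, -1, -1, 0, 0, 0, 0; 0, 0, 0, 0, 1, 0, 0; 0, 0, 0, 0, 0, 0, 1]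

theorem N_norm : ∀ f, B (N f) (N f) = 1 := by decide +kernel

theorem B_N_p : ∀ f, B (N f) p = -1 := by decide +kernel

theorem B_p_p : B p p = -3 := by decide +kernel

theorem skew_iff : ∀ f h, skew f h = true ↔ B (N f) (N h) = 0 := by decide +kernel

theorem B_N_N : ∀ f h, f = h ∨ skew f h = true ∨ B (N f) (N h) = -1 := by decide +kernel

theorem skew_symm : ∀ f h, skew f h = true → skew h f = true := by decide +kernel

theorem skew_irrefl : ∀ f, skew f f = false := by decide +kernel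

theorem gM_isom : gMᵀ * J ℤ * gM = J ℤ := by decide +kernel

theorem gM_pos : 0 < gM 0 0 := by decide +kernel

theorem gM_N : ∀ f, gM *ᵥ (N f) = N (gp f) := by decide +kernel

theorem gM_p : gM *ᵥ p = p := by decide +kernel

theorem gM_pow : gM ^ 8 = 1 := by decide +kernel

end Pool.Agent.W575.Hyp6
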