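import Pool.Agent.W575.Hyp6.LemmaZ

/-!
# Descents, and functions on the orbit of the base point
-/

namespace Pool.Agent.W575.Hyp6

open Matrix

/-- The reflection in the facet `f`. -/
def s (f : Fin 27) : G := refl (N f) (N_norm f)

theorem act_s (f : Fin 27) (x : Fin 7 → ℤ) : act (s f) x = x - (2 * B x (N f)) • N f :=
  act_refl _ _ _

theorem s_mul_s (f : Fin 27) : s f * s f = 1 := refl_mul_self _ _

theorem act_s_s (f : Fin 27) (x : Fin 7 → ℤ) : act (s f) (act (s f) x) = x := by
  rw [← act_mul, s_mul_s, act_one]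

theorem s_inv (f : Fin 27) : (s f)⁻¹ = s f := inv_eq_of_mul_eq_one_left (s_mul_s f)

theorem s_comm {f h : Fin 27} (hs : skew f h = true) : s f * s h = s h * s f := by
  have h1 : B (N f) (N h) = 0 := (skew_iff f h).1 hs
  have h2 : B (N h) (N f) = 0 := by rw [B_comm]; exact h1
  apply act_ext
  intro x
  rw [act_mul, act_mul, act_s, act_s, act_s, act_s, B_sub_left, B_sub_left, B_smul_left,
    B_smul_left, h1, h2]
  ext i
  simp
  ring

theorem B_s (f : Fin 27) (x : Fin 7 → ℤ) : B (act (s f) x) (N f) = - B x (N f) := by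
  rw [act_s, B_sub_left, B_smul_left, N_norm]; ring

theorem B_s_skew {f h : Fin 27} (hs : skew f h = true) (x : Fin 7 → ℤ) :
    B (act (s f) x) (N h) = B x (N h) := by
  rw [act_s, B_sub_left, B_smul_left, (skew_iff f h).1 hs]; ring

theorem B_s_p (f : Fin 27) (x : Fin 7 → ℤ) :
    B (act (s f) x) p = B x p + 2 * B x (N f) := by
  rw [act_s, B_sub_left, B_smul_left, B_N_p]; ring

/-- The integral vectors of norm `-3` in the future cone with odd coordinates. -/
structure X (x : Fin 7 → ℤ) : Prop where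
  norm : B x x = -3
  pos : 0 < x 0
  odd : ∀ i, Odd (x i)

theorem X_p : X p := ⟨by decide +kernel, by decide, by decide⟩

theorem X.s {x : Fin 7 → ℤ} (hx : X x) (f : Fin 27) : X (act (s f) x) := by
  refine ⟨?_, ?_, ?_⟩
  · rw [B_act]; exact hx.norm
  · apply act_future _ _ _ hx.pos
    rw [hx.norm]; norm_num
  · intro i
    rw [act_s]
    obtain ⟨k, hk⟩ := hx.odd i
    refine ⟨k - B x (N f) * N f i, ?_⟩
    simp [hk]
    ring

theorem X.B_p_neg {x : Fin 7 → ℤ} (hx : X x) : B x p < 0 := by
  apply B_neg_of_future _ _ hx.pos (by rw [hx.norm]; norm_num) (by decide)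
  rw [B_p_p]; norm_num

theorem X.B_N_odd {x : Fin 7 → ℤ} (hx : X x) (f : Fin 27) : Odd (B x (N f)) := by
  obtain ⟨k0, h0⟩ := hx.odd 0
  obtain ⟨k1, h1⟩ := hx.odd 1
  obtain ⟨k2, h2⟩ := hx.odd 2
  obtain ⟨k3, h3⟩ := hx.odd 3
  obtain ⟨k4, h4⟩ := hx.odd 4
  obtain ⟨k5, h5⟩ := hx.odd 5
  obtain ⟨k6, h6⟩ := hx.odd 6
  have key : ∀ f : Fin 27, Odd (-(N f 0) + N f 1 + N f 2 + N f 3 + N f 4 + N f 5 + N f 6) := by
    decide +kernel
  obtain ⟨c, hc⟩ := key f
  refine ⟨c + (-(k0 * N f 0) + k1 * N f 1 + k2 * N f 2 + k3 * N f 3 + k4 * N f 4 + k5 * N f 5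
    + k6 * N f 6), ?_⟩
  simp only [B]
  rw [h0, h1, h2, h3, h4, h5, h6]
  linarith

theorem X.B_N_ne {x : Fin 7 → ℤ} (hx : X x) (f : Fin 27) : B x (N f) ≠ 0 := by
  intro h
  have := hx.B_N_odd f
  rw [h] at this
  exact absurd this (by decide)

theorem N_pos_of_meet : ∀ f h, B (N f) (N h) = -1 → 0 < (N f + N h) 0 := by decide +kernel

/-- Two descents are skew. -/
theorem X.skew_of_pos {x : Fin 7 → ℤ} (hx : X x) {f h : Fin 27} (hfh : f ≠ h)
    (hf : 0 < B x (N f)) (hh : 0 < B x (N h)) : skew f h = true := by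
  rcases B_N_N f h with h1 | h1 | h1
  · exact absurd h1 hfh
  · exact h1
  · exfalso
    have hn : B (N f + N h) (N f + N h) = 0 := by
      rw [B_add_left, B_add_right, B_add_right, N_norm, N_norm, B_comm (N h) (N f), h1]; norm_num
    have hpos : 0 < (N f + N h) 0 := N_pos_of_meet f h h1
    have := B_neg_of_future x (N f + N h) hx.pos (by rw [hx.norm]; norm_num) hpos (by rw [hn])
    rw [B_add_right] at this
    linarith

/-- Without descents one is at the base point. -/
theorem X.eq_p {x : Fin 7 → ℤ} (hx : X x) (h : ∀ f, B x (N f) ≤ 0) : x = p :=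
  eq_p_of_facets x hx.norm hx.pos hx.odd h

/-- Induction over all points of the orbit. -/
theorem X.induction {P : (Fin 7 → ℤ) → Prop} (h0 : P p)
    (hs : ∀ x f, X x → P x → P (act (Hyp6.s f) x)) : ∀ x, X x → P x := by
  have main : ∀ (n : ℕ) (x : Fin 7 → ℤ), (-B x p).toNat = n → X x → P x := by
    intro n
    induction n using Nat.strong_induction_on with
    | _ n ih =>
      intro x hn hx
      by_cases hd : ∀ f, B x (N f) ≤ 0
      · rw [hx.eq_p hd]; exact h0
      · push Not at hd
        obtain ⟨f, hf⟩ := hd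
        have h1 : P (act (Hyp6.s f) x) := by
          apply ih _ _ _ rfl (hx.s f)
          rw [B_s_p]
          have := hx.B_p_neg
          omega
        have h2 := hs _ f (hx.s f) h1
        rwa [act_s_s] at h2
  intro x hx
  exact main _ x rfl hx

section T
variable {D : Type*} [Group D] (th : Fin 27 → D)

open Classical in
/-- The function on the orbit with values in a group, defined by descents. -/
noncomputable def T (x : Fin 7 → ℤ) : D :=
  if h : 0 < -B x p ∧ ∃ f, 0 < B x (N f) then
    th h.2.choose * T (act (s h.2.choose) x)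
  else 1
termination_by (-B x p).toNat
decreasing_by
  rw [B_s_p]
  have := h.1
  have := h.2.choose_spec
  omega

theorem T_p : T th p = 1 := by
  rw [T, dif_neg]
  rintro ⟨_, f, hf⟩
  rw [B_comm, B_N_p] at hf
  norm_num at hf

variable (hsq : ∀ f, th f * th f = 1)
  (hcomm : ∀ f h, skew f h = true → th f * th h = th h * th f)

omit hsq in
include hcomm in
theorem T_descent : ∀ (n : ℕ) (x : Fin 7 → ℤ), (-B x p).toNat = n → X x →
    ∀ f, 0 < B x (N f) → T th x = th f * T th (act (s f) x) := by
  intro n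
  induction n using Nat.strong_induction_on with
  | _ n ih =>
    intro x hn hx f hf
    have hneg := hx.B_p_neg
    have hcond : 0 < -B x p ∧ ∃ f, 0 < B x (N f) := ⟨by omega, f, hf⟩
    have hdef : T th x = th hcond.2.choose * T th (act (s hcond.2.choose) x) := by
      rw [T, dif_pos hcond]
    have hspec := hcond.2.choose_spec
    set c := hcond.2.choose with hc
    rw [hdef]
    by_cases hfc : c = f
    · rw [hfc]
    · have hsk : skew c f = true := hx.skew_of_pos hfc hspec hf
      have hsk' : skew f c = true := skew_symm _ _ hsk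
      have h1 : T th (act (s c) x) = th f * T th (act (s f) (act (s c) x)) := by
        apply ih _ _ _ rfl (hx.s c) f
        · rw [B_s_skew hsk]; exact hf
        · rw [B_s_p]; omega
      have h2 : T th (act (s f) x) = th c * T th (act (s c) (act (s f) x)) := by
        apply ih _ _ _ rfl (hx.s f) c
        · rw [B_s_skew hsk']; exact hspec
        · rw [B_s_p]; omega
      rw [h1, h2, ← act_mul, ← act_mul, s_comm hsk', ← mul_assoc, ← mul_assoc, hcomm _ _ hsk]

include hsq hcomm in
/-- The basic property of the function. -/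
theorem T_s {x : Fin 7 → ℤ} (hx : X x) (f : Fin 27) :
    T th (act (s f) x) = th f * T th x := by
  rcases lt_trichotomy (B x (N f)) 0 with h | h | h
  · have h1 : 0 < B (act (s f) x) (N f) := by rw [B_s]; omega
    rw [T_descent th hcomm _ _ rfl (hx.s f) f h1, act_s_s]
  · exact absurd h (hx.B_N_ne f)
  · rw [T_descent th hcomm _ _ rfl hx f h, ← mul_assoc, hsq, one_mul]

end T

end Pool.Agent.W575.Hyp6
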