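import Pool.Agent.W575.Hyp6.VolDefs

/-!
# The action of the positive Lorentz group on hyperbolic space is properly discontinuous
-/

namespace Pool.Agent.W575.Hyp6

open Matrix

/-- the basic estimate: two points of hyperbolic space with bounded distance, one of them fixed,
the other has bounded height. -/
theorem height_lt (x y : Fin 7 → ℝ) (hx : B x x = -1) (hx0 : 0 < x 0) (hy : B y y < 0)
    (hy0 : 0 < y 0) : y 0 < 2 * x 0 * (-B x y) := by
  set E : Fin 7 → ℝ := Pi.single 0 1 with hE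
  have hBE : ∀ z : Fin 7 → ℝ, B E z = - z 0 := by
    intro z; simp [B, hE]
  have hEE : E 0 = 1 := by simp [hE]
  set u : Fin 7 → ℝ := (2 * x 0) • x - E with hu
  have hx1 : 1 ≤ x 0 ^ 2 := by
    have : B x x = (x 1 ^ 2 + x 2 ^ 2 + x 3 ^ 2 + x 4 ^ 2 + x 5 ^ 2 + x 6 ^ 2) - x 0 ^ 2 := by
      simp only [B]; ring
    nlinarith [sq_nonneg (x 1), sq_nonneg (x 2), sq_nonneg (x 3), sq_nonneg (x 4),
      sq_nonneg (x 5), sq_nonneg (x 6)]
  have hu0 : 0 < u 0 := by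
    simp only [hu, Pi.sub_apply, Pi.smul_apply, smul_eq_mul, hEE]
    nlinarith
  have huu : B u u < 0 := by
    rw [hu, B_sub_left, B_sub_right, B_sub_right, B_smul_left, B_smul_left, B_smul_right,
      B_comm x E, hBE, hBE, hBE, hx, hEE, Pi.smul_apply, smul_eq_mul]
    nlinarith
  have hylt : B u y < 0 := B_neg_of_future _ _ hu0 huu hy0 hy.le
  rw [hu, B_sub_left, B_smul_left, hBE] at hylt
  linarith

theorem gl_row (g : G) (i : Fin 7) : |g.1.1 0 i| ≤ g.1.1 0 0 := by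
  have h1 : (g.1.1)ᵀ * J ℤ * g.1.1 = J ℤ := g.2.1
  have h2 : g.1.1 * (g⁻¹).1.1 = 1 := by
    have := congrArg (fun t : G => t.1.1) (mul_inv_cancel g)
    exact this
  have h3 : (g.1.1)ᵀ * J ℤ = J ℤ * (g⁻¹).1.1 := by
    calc (g.1.1)ᵀ * J ℤ = (g.1.1)ᵀ * J ℤ * (g.1.1 * (g⁻¹).1.1) := by rw [h2, mul_one]
      _ = ((g.1.1)ᵀ * J ℤ * g.1.1) * (g⁻¹).1.1 := by simp only [Matrix.mul_assoc]
      _ = _ := by rw [h1]
  have h4 := congrFun (congrFun h3 i) 0
  have h5 : ((g.1.1)ᵀ * J ℤ) i 0 = - g.1.1 0 i := by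
    simp [J, Matrix.mul_diagonal]
  have h6 : |(g⁻¹).1.1 i 0| = |g.1.1 0 i| := by
    rw [h5] at h4
    have h7 : (J ℤ * (g⁻¹).1.1) i 0 = (![-1, 1, 1, 1, 1, 1, 1] : Fin 7 → ℤ) i * (g⁻¹).1.1 i 0 := by
      simp [J, Matrix.diagonal_mul]
    rw [h7] at h4
    have : |(![-1, 1, 1, 1, 1, 1, 1] : Fin 7 → ℤ) i| = 1 := by fin_cases i <;> simp
    have h8 := congrArg abs h4
    rw [abs_neg, abs_mul, this, one_mul] at h8
    exact h8.symm
  have h7 : (g⁻¹).1.1 0 0 = g.1.1 0 0 := gl_inv_zero g.1 g.2.1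
  rw [← h6, ← h7]
  have h8 : B ((g⁻¹).1.1 *ᵥ e0) ((g⁻¹).1.1 *ᵥ e0) = B e0 e0 := B_gl (g⁻¹).1 (g⁻¹).2.1 e0 e0
  have h9 : ∀ j, ((g⁻¹).1.1 *ᵥ e0) j = (g⁻¹).1.1 j 0 := by
    intro j; simp [e0]
  have h10 : B e0 e0 = (-1 : ℤ) := by simp [B, e0]
  rw [h10] at h8
  simp only [B, h9] at h8
  apply abs_le_of_sq_le_sq _ (g⁻¹).2.2.le
  set N := (g⁻¹).1.1
  fin_cases i <;> simp <;> nlinarith [sq_nonneg (N 1 0), sq_nonneg (N 2 0), sq_nonneg (N 3 0),
      sq_nonneg (N 4 0), sq_nonneg (N 5 0), sq_nonneg (N 6 0)]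

theorem gl_entry (g : G) (k i : Fin 7) : |g.1.1 k i| ≤ 2 * g.1.1 0 0 := by
  have h1 := gl_row g i
  have hp : 0 < g.1.1 0 0 := g.2.2
  have h8 : B (g.1.1 *ᵥ Pi.single i 1) (g.1.1 *ᵥ Pi.single i 1) =
      B (Pi.single i (1 : ℤ)) (Pi.single i 1) := B_gl g.1 g.2.1 _ _
  have h9 : ∀ j, (g.1.1 *ᵥ Pi.single i 1) j = g.1.1 j i := by
    intro j; simp
  have h10 : B (Pi.single i (1 : ℤ)) (Pi.single i 1) ≤ (1 : ℤ) := by
    fin_cases i <;> simp [B]
  simp only [B, h9] at h8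
  have h11 := sq_le_sq.2 (h1.trans_eq (abs_of_pos hp).symm)
  simp only [B] at h10
  rw [← h8] at h10
  apply abs_le_of_sq_le_sq _ (by linarith)
  set N := g.1.1
  fin_cases k <;> simp <;> nlinarith [sq_nonneg (N 1 i), sq_nonneg (N 2 i), sq_nonneg (N 3 i),
      sq_nonneg (N 4 i), sq_nonneg (N 5 i), sq_nonneg (N 6 i)]

/-- finitely many elements have bounded upper left entry -/
theorem finite_height (C : ℤ) : {g : G | g.1.1 0 0 ≤ C}.Finite := by
  have hinj : Function.Injective (fun g : G => (fun p : Fin 7 × Fin 7 => g.1.1 p.1 p.2)) := by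
    intro a b hab
    apply Subtype.ext
    apply Units.ext
    ext i j
    exact congrFun hab (i, j)
  apply Set.Finite.of_finite_image (f := fun g : G => (fun p : Fin 7 × Fin 7 => g.1.1 p.1 p.2))
    _ hinj.injOn
  apply (Set.finite_Icc (fun _ => -(2 * C) : Fin 7 × Fin 7 → ℤ) (fun _ => 2 * C)).subset
  rintro _ ⟨g, hg, rfl⟩
  have hg' : g.1.1 0 0 ≤ C := hg
  rw [Set.mem_Icc]
  constructor
  · intro p
    have := abs_le.1 (gl_entry g p.1 p.2)
    simp only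
    linarith
  · intro p
    have := abs_le.1 (gl_entry g p.1 p.2)
    simp only
    linarith

/-- **Proper discontinuity**: only finitely many elements of the group move the point `x` by a
bounded distance (`-B x (γ x)` is the hyperbolic cosine of the distance from `x` to `γ x`). -/
theorem proper (x : H6) (C : ℝ) : {γ : PosLor | -B x.1 (γ • x).1 ≤ C}.Finite := by
  obtain ⟨K, hK⟩ := exists_int_gt (2 * x.1 0 * (2 * x.1 0 * C))
  apply (finite_height K).subset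
  intro g hg
  have hg' : -B x.1 (g • x).1 ≤ C := hg
  have h1 := height_lt x.1 (g • x).1 x.2.1 x.2.2 (by rw [(g • x).2.1]; norm_num) (g • x).2.2
  set E : Fin 7 → ℝ := Pi.single 0 1 with hE
  have hBE : ∀ z : Fin 7 → ℝ, B z E = - z 0 := by
    intro z; simp [B, hE]
  have hcol : (actR g⁻¹ E) 0 = (((g⁻¹).1.1 0 0 : ℤ) : ℝ) := by
    simp [actR, hE]
  have hinv : (g⁻¹).1.1 0 0 = g.1.1 0 0 := gl_inv_zero g.1 g.2.1
  have h2 := height_lt x.1 (actR g⁻¹ E) x.2.1 x.2.2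
    (by rw [B_actR', hBE]; simp [hE])
    (by rw [hcol]; exact_mod_cast (g⁻¹).2.2)
  have h3 : B x.1 (actR g⁻¹ E) = - (g • x).1 0 := by
    rw [← B_actR' g, ← actR_mul', mul_inv_cancel, actR_one', hBE]; rfl
  rw [hcol, hinv, h3, neg_neg] at h2
  have hx0 := x.2.2
  have h4 : 2 * x.1 0 * (-B x.1 (g • x).1) ≤ 2 * x.1 0 * C := by
    apply mul_le_mul_of_nonneg_left hg' (by linarith)
  have h5 : 2 * x.1 0 * (g • x).1 0 ≤ 2 * x.1 0 * (2 * x.1 0 * C) := by
    apply mul_le_mul_of_nonneg_left (by linarith) (by linarith)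
  have h6 : (g.1.1 0 0 : ℝ) < K := by linarith
  have h7 : g.1.1 0 0 < K := by exact_mod_cast h6
  exact h7.le

end Pool.Agent.W575.Hyp6
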