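import Mathlib

/-!
# The Lorentzian form in 7 variables and the group of positive Lorentzian integral matrices
-/

namespace Pool.Agent.W575.Hyp6

open Matrix

/-- The diagonal matrix with entries `-1, 1, 1, 1, 1, 1, 1`. -/
def J (R : Type*) [CommRing R] : Matrix (Fin 7) (Fin 7) R :=
  Matrix.diagonal ![-1, 1, 1, 1, 1, 1, 1]

/-- The Lorentzian form `-x₀y₀ + x₁y₁ + ... + x₆y₆`. -/
def B {R : Type*} [CommRing R] (x y : Fin 7 → R) : R :=
  -(x 0 * y 0) + x 1 * y 1 + x 2 * y 2 + x 3 * y 3 + x 4 * y 4 + x 5 * y 5 + x 6 * y 6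

section
variable {R : Type*} [CommRing R]

theorem B_eq_dot (x y : Fin 7 → R) : B x y = x ⬝ᵥ (J R *ᵥ y) := by
  simp [B, J, dotProduct, Fin.sum_univ_succ, mulVec_diagonal]
  ring

theorem B_comm (x y : Fin 7 → R) : B x y = B y x := by simp [B]; ring

theorem B_add_left (x y z : Fin 7 → R) : B (x + y) z = B x z + B y z := by simp [B]; ring
theorem B_add_right (x y z : Fin 7 → R) : B x (y + z) = B x y + B x z := by simp [B]; ring
theorem B_sub_left (x y z : Fin 7 → R) : B (x - y) z = B x z - B y z := by simp [B]; ring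
theorem B_sub_right (x y z : Fin 7 → R) : B x (y - z) = B x y - B x z := by simp [B]; ring
theorem B_neg_left (x y : Fin 7 → R) : B (-x) y = -B x y := by simp [B]; ring
theorem B_neg_right (x y : Fin 7 → R) : B x (-y) = -B x y := by simp [B]; ring
theorem B_smul_left (c : R) (x y : Fin 7 → R) : B (c • x) y = c * B x y := by simp [B]; ring
theorem B_smul_right (c : R) (x y : Fin 7 → R) : B x (c • y) = c * B x y := by simp [B]; ring
theorem B_zero_left (y : Fin 7 → R) : B 0 y = 0 := by simp [B]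
theorem B_zero_right (y : Fin 7 → R) : B y 0 = 0 := by simp [B]

theorem B_sum_left {ι : Type*} (s : Finset ι) (f : ι → Fin 7 → R) (y : Fin 7 → R) :
    B (∑ i ∈ s, f i) y = ∑ i ∈ s, B (f i) y := by
  classical
  induction s using Finset.induction_on with
  | empty => simp [B_zero_left]
  | insert a s ha ih => rw [Finset.sum_insert ha, Finset.sum_insert ha, B_add_left, ih]

theorem mulVec_dot (M : Matrix (Fin 7) (Fin 7) R) (x y : Fin 7 → R) :
    (M *ᵥ x) ⬝ᵥ y = x ⬝ᵥ (Mᵀ *ᵥ y) := by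
  rw [dotProduct_mulVec, vecMul_transpose]

theorem B_mulVec' (M : Matrix (Fin 7) (Fin 7) R) (x y : Fin 7 → R) :
    B (M *ᵥ x) (M *ᵥ y) = x ⬝ᵥ ((Mᵀ * J R * M) *ᵥ y) := by
  rw [B_eq_dot, mulVec_dot, mulVec_mulVec, mulVec_mulVec, Matrix.mul_assoc]

theorem B_mulVec (M : Matrix (Fin 7) (Fin 7) R) (h : Mᵀ * J R * M = J R) (x y : Fin 7 → R) :
    B (M *ᵥ x) (M *ᵥ y) = B x y := by
  rw [B_mulVec', h, B_eq_dot]

theorem isom_of_B (M : Matrix (Fin 7) (Fin 7) R)
    (h : ∀ x y : Fin 7 → R, B (M *ᵥ x) (M *ᵥ y) = B x y) : Mᵀ * J R * M = J R := by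
  ext i j
  have key : ∀ (A : Matrix (Fin 7) (Fin 7) R) (i j : Fin 7),
      (Pi.single i (1 : R)) ⬝ᵥ (A *ᵥ (Pi.single j (1 : R))) = A i j := by
    intro A i j
    simp
  rw [← key (Mᵀ * J R * M) i j, ← key (J R) i j, ← B_eq_dot, ← h, B_mulVec']

theorem J_mul_J : J R * J R = 1 := by
  ext i j
  fin_cases i <;> fin_cases j <;> simp [J]

theorem det_unit (M : Matrix (Fin 7) (Fin 7) R) (h : Mᵀ * J R * M = J R) :
    (J R * Mᵀ * J R) * M = 1 ∧ M * (J R * Mᵀ * J R) = 1 := by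
  have h1 : (J R * Mᵀ * J R) * M = 1 := by
    have : (J R * Mᵀ * J R) * M = J R * (Mᵀ * J R * M) := by
      simp only [Matrix.mul_assoc]
    rw [this, h, J_mul_J]
  exact ⟨h1, mul_eq_one_comm.mp h1⟩

end

section ordered
variable {R : Type*} [CommRing R] [LinearOrder R] [IsStrictOrderedRing R]

/-- Reversed Cauchy-Schwarz: a future timelike vector has negative product with every nonzero
future causal vector. -/
theorem B_neg_of_future (x y : Fin 7 → R) (hx0 : 0 < x 0) (hx : B x x < 0)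
    (hy0 : 0 < y 0) (hy : B y y ≤ 0) : B x y < 0 := by
  have cs := Finset.sum_mul_sq_le_sq_mul_sq (Finset.univ : Finset (Fin 6))
    (fun i => x i.succ) (fun i => y i.succ)
  simp only [Fin.sum_univ_six] at cs
  have e1 : (Fin.succ 0 : Fin 7) = 1 := rfl
  have e2 : (Fin.succ 1 : Fin 7) = 2 := rfl
  have e3 : (Fin.succ 2 : Fin 7) = 3 := rfl
  have e4 : (Fin.succ 3 : Fin 7) = 4 := rfl
  have e5 : (Fin.succ 4 : Fin 7) = 5 := rfl
  have e6 : (Fin.succ 5 : Fin 7) = 6 := rfl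
  rw [e1, e2, e3, e4, e5, e6] at cs
  set S := x 1 * y 1 + x 2 * y 2 + x 3 * y 3 + x 4 * y 4 + x 5 * y 5 + x 6 * y 6 with hS
  set X := x 1 ^ 2 + x 2 ^ 2 + x 3 ^ 2 + x 4 ^ 2 + x 5 ^ 2 + x 6 ^ 2 with hX
  set Y := y 1 ^ 2 + y 2 ^ 2 + y 3 ^ 2 + y 4 ^ 2 + y 5 ^ 2 + y 6 ^ 2 with hY
  have hX0 : 0 ≤ X := by positivity
  have hXlt : X < x 0 ^ 2 := by
    have : B x x = X - x 0 ^ 2 := by simp only [B, hX]; ring
    linarith
  have hYle : Y ≤ y 0 ^ 2 := by
    have : B y y = Y - y 0 ^ 2 := by simp only [B, hY]; ring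
    linarith
  have h1 : S ^ 2 < (x 0 * y 0) ^ 2 := by
    calc S ^ 2 ≤ X * Y := cs
      _ ≤ X * y 0 ^ 2 := by exact mul_le_mul_of_nonneg_left hYle hX0
      _ < x 0 ^ 2 * y 0 ^ 2 := by exact mul_lt_mul_of_pos_right hXlt (by positivity)
      _ = (x 0 * y 0) ^ 2 := by ring
  have h2 : S < x 0 * y 0 := lt_of_pow_lt_pow_left₀ 2 (by positivity) h1
  have : B x y = S - x 0 * y 0 := by simp only [B, hS]; ring
  linarith

end ordered

end Pool.Agent.W575.Hyp6
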