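import Pool.Agent.W575.Hyp6.Rot

/-!
# The subgroup acts freely on hyperbolic space
-/

namespace Pool.Agent.W575.Hyp6

open Matrix

theorem J_map : (J ℤ).map (Int.cast : ℤ → ℝ) = J ℝ := by
  ext i j
  fin_cases i <;> fin_cases j <;> simp [J]

theorem map_mul' (A C : Matrix (Fin 7) (Fin 7) ℤ) :
    (A * C).map (Int.cast : ℤ → ℝ) = A.map (Int.cast : ℤ → ℝ) * C.map (Int.cast : ℤ → ℝ) := by
  have := Matrix.map_mul (L := A) (M := C) (f := Int.castRingHom ℝ)
  simpa using this

theorem B_actR (w : G) (x y : Fin 7 → ℝ) : B (actR w x) (actR w y) = B x y := by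
  have h := congrArg (fun M : Matrix (Fin 7) (Fin 7) ℤ => M.map (Int.cast : ℤ → ℝ)) w.2.1
  simp only [map_mul', J_map] at h
  exact B_mulVec _ h x y

theorem actR_mul (a b : G) (x : Fin 7 → ℝ) : actR (a * b) x = actR a (actR b x) := by
  simp only [actR, mulVec_mulVec]
  congr 1
  rw [← map_mul']
  rfl

theorem actR_one (x : Fin 7 → ℝ) : actR 1 x = x := by
  unfold actR
  have : ((1 : G).1.1.map (Int.cast : ℤ → ℝ)) = 1 := by
    ext i j
    simp [Matrix.one_apply]
  rw [this, one_mulVec]

/-- Cast of an integral vector. -/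
def cst (y : Fin 7 → ℤ) : Fin 7 → ℝ := fun i => (y i : ℝ)

theorem cst_act (w : G) (y : Fin 7 → ℤ) : cst (act w y) = actR w (cst y) := by
  ext i
  simp [cst, act, actR, mulVec, dotProduct]

theorem B_cst (x y : Fin 7 → ℤ) : B (cst x) (cst y) = ((B x y : ℤ) : ℝ) := by
  simp [B, cst]

/-- The orbit vectors at a given distance of a point of hyperbolic space. -/
def level (x : Fin 7 → ℝ) : Set (Fin 7 → ℤ) := {y | X y ∧ B (cst y) x = B (cst p) x}

theorem level_finite (x : Fin 7 → ℝ) (hx : B x x = -1) : (level x).Finite := by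
  obtain ⟨K, hK⟩ := exists_int_gt (2 * x 0 * (-B (cst p) x))
  apply (Set.finite_Icc (fun _ => -K : Fin 7 → ℤ) (fun _ => K)).subset
  rintro y ⟨hy, hyx⟩
  -- the auxiliary vector
  set E : Fin 7 → ℝ := Pi.single 0 1 with hE
  have hBE : ∀ z : Fin 7 → ℝ, B E z = - z 0 := by
    intro z; simp [B, hE]
  have hEE : E 0 = 1 := by simp [hE]
  set u : Fin 7 → ℝ := (2 * x 0) • x - E with hu
  have hx1 : 1 ≤ x 0 ^ 2 := by
    have : B x x = (x 1 ^ 2 + x 2 ^ 2 + x 3 ^ 2 + x 4 ^ 2 + x 5 ^ 2 + x 6 ^ 2) - x 0 ^ 2 := by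
      simp only [B]; ring
    nlinarith [sq_nonneg (x 1), sq_nonneg (x 2), sq_nonneg (x 3), sq_nonneg (x 4),
      sq_nonneg (x 5), sq_nonneg (x 6)]
  have hu0 : 0 < u 0 := by
    simp only [hu, Pi.sub_apply, Pi.smul_apply, smul_eq_mul, hEE]
    nlinarith
  have huu : B u u < 0 := by
    rw [hu, B_sub_left, B_sub_right, B_sub_right, B_smul_left, B_smul_left, B_smul_right,
      B_comm x E, hBE, hBE, hBE, hx, hEE, Pi.smul_apply, smul_eq_mul]
    nlinarith
  have hylt : B u (cst y) < 0 := by
    apply B_neg_of_future _ _ hu0 huu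
    · change (0 : ℝ) < (y 0 : ℝ)
      exact_mod_cast hy.pos
    · rw [B_cst, hy.norm]; norm_num
  have h1 : (y 0 : ℝ) < K := by
    rw [hu, B_sub_left, B_smul_left, hBE, B_comm x, hyx] at hylt
    have : cst y 0 = (y 0 : ℝ) := rfl
    rw [this] at hylt
    linarith
  have h2 : y 0 < K := by exact_mod_cast h1
  have h3 : ∀ i, y i ^ 2 ≤ y 0 ^ 2 := by
    intro i
    have hn := hy.norm
    simp only [B] at hn
    fin_cases i <;> simp <;> nlinarith [sq_nonneg (y 1), sq_nonneg (y 2), sq_nonneg (y 3),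
      sq_nonneg (y 4), sq_nonneg (y 5), sq_nonneg (y 6)]
  have h4 : ∀ i, |y i| ≤ y 0 := by
    intro i
    exact abs_le_of_sq_le_sq (h3 i) hy.pos.le
  rw [Set.mem_Icc]
  constructor
  · intro i
    have := abs_le.1 (h4 i)
    simp only
    linarith
  · intro i
    have := abs_le.1 (h4 i)
    simp only
    linarith

theorem sum_future (S : Finset (Fin 7 → ℤ)) (hS : S.Nonempty)
    (h : ∀ y ∈ S, B y y < 0 ∧ 0 < y 0) : B (∑ y ∈ S, y) (∑ y ∈ S, y) < 0 ∧ 0 < (∑ y ∈ S, y) 0 := by
  constructor
  · rw [B_sum_left]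
    apply Finset.sum_neg _ hS
    intro y hy
    rw [B_comm, B_sum_left]
    apply Finset.sum_neg _ hS
    intro z hz
    exact B_neg_of_future _ _ (h z hz).2 (h z hz).1 (h y hy).2 (h y hy).1.le
  · rw [Finset.sum_apply]
    exact Finset.sum_pos (fun y hy => (h y hy).2) hS

/-- An element fixing a point of hyperbolic space fixes an integral point. -/
theorem exists_fixed (γ : G) (x : Fin 7 → ℝ) (hx : B x x = -1)
    (hγ : actR γ x = x) : ∃ Y : Fin 7 → ℤ, B Y Y < 0 ∧ 0 < Y 0 ∧ act γ Y = Y := by
  set S := (level_finite x hx).toFinset with hS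
  have hmem : ∀ y, y ∈ S ↔ (X y ∧ B (cst y) x = B (cst p) x) := by
    intro y
    rw [hS, Set.Finite.mem_toFinset]
    rfl
  have hne : S.Nonempty := ⟨p, (hmem p).2 ⟨X_p, rfl⟩⟩
  have h := sum_future S hne (by
    intro y hy
    have h1 := ((hmem y).1 hy).1
    exact ⟨by rw [h1.norm]; norm_num, h1.pos⟩)
  refine ⟨∑ y ∈ S, y, h.1, h.2, ?_⟩
  rw [act_sum]
  have hmap : ∀ y ∈ S, act γ y ∈ S := by
    intro y hy
    obtain ⟨h1, h2⟩ := (hmem y).1 hy
    refine (hmem _).2 ⟨h1.act γ, ?_⟩
    rw [cst_act, ← h2]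
    conv_lhs => rw [← hγ]
    rw [B_actR]
  have hinj : Set.InjOn (act γ) S := by
    intro a _ b _ hab
    exact act_inj γ hab
  have himg : S.image (act γ) = S := by
    apply Finset.eq_of_subset_of_card_le
    · intro y hy
      obtain ⟨z, hz, rfl⟩ := Finset.mem_image.1 hy
      exact hmap z hz
    · rw [Finset.card_image_of_injOn hinj]
  calc ∑ y ∈ S, act γ y = ∑ y ∈ S.image (act γ), y := by
        rw [Finset.sum_image hinj]
    _ = ∑ y ∈ S, y := by rw [himg]

/-- Moving an integral point to the cone. -/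
theorem exists_move : ∀ (n : ℕ) (Y : Fin 7 → ℤ), (-B Y p).toNat = n → B Y Y < 0 → 0 < Y 0 →
    ∃ δ ∈ Gam2, ∀ f, B (act δ Y) (N f) ≤ 0 := by
  intro n
  induction n using Nat.strong_induction_on with
  | _ n ih =>
    intro Y hn hY hY0
    by_cases hd : ∀ f, B Y (N f) ≤ 0
    · exact ⟨1, Subgroup.one_mem _, by simpa [act_one] using hd⟩
    · push Not at hd
      obtain ⟨f, hf⟩ := hd
      have hneg : B Y p < 0 := B_neg_of_future _ _ hY0 hY (by decide) (by rw [B_p_p]; norm_num)
      obtain ⟨δ, hδ, h⟩ := ih (-B (act (s f) Y) p).toNat (by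
        rw [B_s_p]; omega) (act (s f) Y) rfl (by rw [B_act]; exact hY) (act_future _ _ hY hY0)
      refine ⟨δ * s f, Subgroup.mul_mem _ hδ (s_mem f), ?_⟩
      intro g
      rw [act_mul]
      exact h g

/-- The base point is closest among its orbit to any point of the cone. -/
theorem base_closest (z : Fin 7 → ℤ) (hz : ∀ f, B z (N f) ≤ 0) :
    ∀ (n : ℕ) (x : Fin 7 → ℤ), (-B x p).toNat = n → X x → B z x ≤ B z p := by
  intro n
  induction n using Nat.strong_induction_on with
  | _ n ih =>
    intro x hn hx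
    by_cases hd : ∀ f, B x (N f) ≤ 0
    · rw [hx.eq_p hd]
    · push Not at hd
      obtain ⟨f, hf⟩ := hd
      have h1 := ih (-B (act (s f) x) p).toNat (by
        rw [B_s_p]
        have := hx.B_p_neg
        omega) (act (s f) x) rfl (hx.s f)
      rw [act_s, B_sub_right, B_smul_right] at h1
      have h2 := hz f
      nlinarith

theorem desc_fix {z : Fin 7 → ℤ} (hz : ∀ f, B z (N f) ≤ 0) {γ : G} (hγ : act γ z = z)
    {f : Fin 27} (hf : 0 < B (act γ p) (N f)) : B z (N f) = 0 := by
  have h0 : B z (act γ p) = B z p := by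
    conv_lhs => rw [← hγ]
    rw [B_act]
  have h1 := base_closest z hz _ (act (s f) (act γ p)) rfl ((X_p.act γ).s f)
  rw [act_s, B_sub_right, B_smul_right, h0] at h1
  have h2 := hz f
  nlinarith

theorem skew_of_fix {z : Fin 7 → ℤ} (hz : B z z < 0) (hz0 : 0 < z 0) {f h : Fin 27}
    (hfh : f ≠ h) (hf : B z (N f) = 0) (hh : B z (N h) = 0) : skew f h = true := by
  rcases B_N_N f h with h1 | h1 | h1
  · exact absurd h1 hfh
  · exact h1
  · exfalso
    have hn : B (N f + N h) (N f + N h) = 0 := by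
      rw [B_add_left, B_add_right, B_add_right, N_norm, N_norm, B_comm (N h) (N f), h1]; norm_num
    have := B_neg_of_future z (N f + N h) hz0 hz (N_pos_of_meet f h h1) (by rw [hn])
    rw [B_add_right] at this
    linarith

/-- Product of the reflections in a list. -/
def prodS (l : List (Fin 27)) : G := (l.map s).prod

/-- Sum of the labels in a list. -/
def cL (l : List (Fin 27)) : ℕ := l.foldr (fun f a => lam f ^^^ a) 0

theorem prodS_cons (f : Fin 27) (l : List (Fin 27)) : prodS (f :: l) = s f * prodS l := by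
  simp [prodS]

theorem prodS_mem (l : List (Fin 27)) : prodS l ∈ Gam2 := by
  induction l with
  | nil => exact Subgroup.one_mem _
  | cons f l ih => rw [prodS_cons]; exact Subgroup.mul_mem _ (s_mem f) ih

theorem L_prodS (l : List (Fin 27)) : L (act (prodS l) p) = cL l := by
  induction l with
  | nil => change L (act 1 p) = 0; rw [act_one, L_p]
  | cons f l ih => rw [prodS_cons, act_mul, L_s (X_p.act _), ih]; rfl

theorem prodS_fix {z : Fin 7 → ℤ} {l : List (Fin 27)} (h : ∀ f ∈ l, B z (N f) = 0) :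
    act (prodS l) z = z := by
  induction l with
  | nil => exact act_one z
  | cons f l ih =>
    rw [prodS_cons, act_mul, ih (fun g hg => h g (by simp [hg])), act_s, h f (by simp)]
    simp

theorem B_prodS_skew {l : List (Fin 27)} {h : Fin 27} (hl : ∀ f ∈ l, skew f h = true)
    (x : Fin 7 → ℤ) : B (act (prodS l) x) (N h) = B x (N h) := by
  induction l with
  | nil => change B (act 1 x) _ = _; rw [act_one]
  | cons f l ih =>
    rw [prodS_cons, act_mul, B_s_skew (hl f (by simp)), ih (fun g hg => hl g (by simp [hg]))]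

theorem B_prodS_mem {l : List (Fin 27)} {h : Fin 27} (hl : l.Pairwise (fun a b => skew a b = true))
    (hh : h ∈ l) (x : Fin 7 → ℤ) : B (act (prodS l) x) (N h) = - B x (N h) := by
  induction l with
  | nil => simp at hh
  | cons f l ih =>
    rw [List.pairwise_cons] at hl
    rw [prodS_cons, act_mul]
    rcases List.mem_cons.1 hh with rfl | hh
    · rw [B_s, B_prodS_skew]
      intro g hg
      exact skew_symm _ _ (hl.1 g hg)
    · rw [B_s_skew (hl.1 h hh), ih hl.2 hh]

theorem cL_append (l m : List (Fin 27)) : cL (l ++ m) = cL l ^^^ cL m := by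
  induction l with
  | nil => simp [cL]
  | cons f l ih =>
    have h1 : cL (f :: (l ++ m)) = lam f ^^^ cL (l ++ m) := rfl
    have h2 : cL (f :: l) = lam f ^^^ cL l := rfl
    rw [List.cons_append, h1, ih, h2, Nat.xor_assoc]

theorem cL_reverse (l : List (Fin 27)) : cL l.reverse = cL l := by
  induction l with
  | nil => rfl
  | cons f l ih =>
    have h2 : cL (f :: l) = lam f ^^^ cL l := rfl
    have h3 : cL [f] = lam f := by simp [cL]
    rw [List.reverse_cons, cL_append, ih, h2, h3, Nat.xor_comm]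

/-- The check that no nonempty clique has label sum zero. -/
def chkX (l : List (Fin 27)) : Bool := l.isEmpty || cL l != 0

set_option maxRecDepth 100000 in
theorem chkX_all : chk chkX 27 (List.finRange 27) [] = true := by decide +kernel

/-- The list of descents of an orbit point. -/
def descL (x : Fin 7 → ℤ) : List (Fin 27) :=
  (List.finRange 27).filter (fun f => decide (0 < B x (N f)))

theorem mem_descL (x : Fin 7 → ℤ) (f : Fin 27) : f ∈ descL x ↔ 0 < B x (N f) := by
  simp [descL]

theorem descL_pairwise {x : Fin 7 → ℤ} (hx : X x) :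
    (descL x).Pairwise (fun a b => skew a b = true) := by
  apply List.Pairwise.imp_of_mem _ ((List.nodup_finRange 27).filter _)
  intro a b ha hb hab
  exact hx.skew_of_pos hab ((mem_descL x a).1 ha) ((mem_descL x b).1 hb)

theorem descL_nil {x : Fin 7 → ℤ} (hx : X x) (h : cL (descL x) = 0) : descL x = [] := by
  have h1 := chk_sound chkX 27 (List.finRange 27) [] chkX_all (by simp) (descL x)
    List.filter_sublist (descL_pairwise hx)
  rw [List.append_nil] at h1
  simp only [chkX, Bool.or_eq_true, cL_reverse, h] at h1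
  simpa using h1

/-- The structure of the elements fixing an integral point of the cone. -/
theorem fix_structure {z : Fin 7 → ℤ} (hz : ∀ f, B z (N f) ≤ 0) (hzz : B z z < 0) (hz0 : 0 < z 0)
    {γ : G} (hγ : act γ z = z) : prodS (descL (act γ p)) * γ ∈ Stab ∧
      (∀ f ∈ descL (act γ p), B z (N f) = 0) ∧
      act (prodS (descL (act γ p)) * γ) z = z := by
  set l := descL (act γ p) with hl
  have hlz : ∀ f ∈ l, B z (N f) = 0 := by
    intro f hf
    exact desc_fix hz hγ ((mem_descL _ _).1 hf)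
  have hfix : act (prodS l * γ) z = z := by
    rw [act_mul, hγ, prodS_fix hlz]
  refine ⟨?_, hlz, hfix⟩
  rw [mem_Stab]
  apply (X_p.act _).eq_p
  intro h
  by_contra hcon
  push Not at hcon
  by_cases hh : h ∈ l
  · rw [act_mul, B_prodS_mem (descL_pairwise (X_p.act γ)) hh] at hcon
    have := (mem_descL _ _).1 hh
    linarith
  · have h1 := desc_fix hz hfix hcon
    rw [act_mul, B_prodS_skew] at hcon
    · exact hh ((mem_descL _ _).2 hcon)
    · intro f hf
      refine skew_of_fix hzz hz0 ?_ (hlz f hf) h1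
      rintro rfl
      exact hh hf

theorem gh_pow_mod (k : ℕ) : gh ^ k = gh ^ (k % 8) := by
  conv_lhs => rw [← Nat.div_add_mod k 8, pow_add, pow_mul, gh_pow, one_pow, one_mul]

theorem rho_iter_eight (m : ℕ) {n : ℕ} (hn : n < 64) : rho^[8 * m] n = n := by
  induction m with
  | zero => rfl
  | succ m ih => rw [mul_add, mul_one, Function.iterate_add_apply, rho_eight n hn, ih]

theorem v_mod (m j : ℕ) : v (8 * m + j) = v j := by
  rw [v_add, v_eight_mul, Nat.xor_zero, rho_iter_eight _ (v_lt j)]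

theorem chk_four : ∀ n < 64, (n ^^^ (v 4 ^^^ rho^[4] n)).testBit 2 = true := by decide +kernel

theorem chk_four_lam : ∀ f : Fin 27, (gp (gp (gp (gp f))) = f ∨
    skew (gp (gp (gp (gp f)))) f = true) → (lam f).testBit 2 = false := by decide +kernel

theorem cL_testBit {l : List (Fin 27)} (h : ∀ f ∈ l, (lam f).testBit 2 = false) :
    (cL l).testBit 2 = false := by
  induction l with
  | nil => simp [cL]
  | cons f l ih =>
    have h2 : cL (f :: l) = lam f ^^^ cL l := rfl
    rw [h2, Nat.testBit_xor, h f (by simp), ih (fun g hg => h g (by simp [hg]))]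
    rfl

/-- The main step: an element of the subgroup with a fixed point. -/
theorem main_step (δ : G) (hδ : δ ∈ Gam2) (k : ℕ) (hk : L (act δ p) = v k)
    (x : Fin 7 → ℝ) (hx : B x x = -1) (hγ : actR (δ * gh ^ k) x = x) :
    k % 8 ≠ 4 ∧ (k % 8 = 0 → δ * gh ^ k = 1) := by
  obtain ⟨Y, hY, hY0, hYf⟩ := exists_fixed _ x hx hγ
  obtain ⟨ε, hε, hz⟩ := exists_move _ Y rfl hY hY0
  set z := act ε Y with hzdef
  have hzz : B z z < 0 := by rw [hzdef, B_act]; exact hY
  have hz0 : 0 < z 0 := act_future _ _ hY hY0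
  set γ' : G := ε * (δ * gh ^ k) * ε⁻¹ with hγ'
  have hfix : act γ' z = z := by
    rw [hγ', act_mul, act_mul, hzdef, act_inv_act, hYf]
  obtain ⟨h1, h2, h3⟩ := fix_structure hz hzz hz0 hfix
  set l := descL (act γ' p) with hl
  -- identify the rotation
  have hrot : prodS l * γ' = gh ^ k := by
    have h4 : (prodS l * γ') * (gh ^ k)⁻¹ = 1 := by
      apply Stab_Gam2
      · exact Subgroup.mul_mem _ h1 (Subgroup.inv_mem _ (gh_pow_mem_Stab k))
      · have : (prodS l * γ') * (gh ^ k)⁻¹ = prodS l * ε * δ * (gh ^ k * ε⁻¹ * (gh ^ k)⁻¹) := by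
          rw [hγ']; group
        rw [this]
        exact Subgroup.mul_mem _ (Subgroup.mul_mem _ (Subgroup.mul_mem _ (prodS_mem l) hε) hδ)
          (conj_mem (Subgroup.inv_mem _ hε) _)
    exact mul_inv_eq_one.1 h4
  have hfixg : act (gh ^ k) z = z := by rw [← hrot]; exact h3
  -- the label
  have hlab1 : L (act γ' p) = cL l := by
    have h5 : γ' = (prodS l)⁻¹ * gh ^ k := by rw [← hrot]; group
    rw [h5, act_mul, gh_pow_p, L_inv (prodS_mem l), L_prodS]
  have hlab2 : L (act γ' p) = L (act ε p) ^^^ (v k ^^^ rho^[k] (L (act ε p))) := by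
    rw [hγ', act_mul, act_mul, act_mul, L_mul hε ((X_p.act _).act _ |>.act _),
      L_mul hδ ((X_p.act _).act _), hk, L_gh_pow k (X_p.act _), L_inv hε]
  rw [hlab1] at hlab2
  have hlt := L_lt _ (X_p.act ε)
  set a := L (act ε p) with ha
  constructor
  · intro hk4
    have hkk : k = 8 * (k / 8) + 4 := by omega
    have h6 : rho^[k] a = rho^[4] a := by
      rw [hkk, Function.iterate_add_apply]
      have : rho^[4] a < 64 := rho_lt _
      exact rho_iter_eight _ this
    have h7 : v k = v 4 := by rw [hkk, v_mod]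
    rw [h6, h7] at hlab2
    have h8 := chk_four a hlt
    rw [← hlab2] at h8
    have hg4 : act (gh ^ 4) z = z := by
      rw [gh_pow_mod, hk4] at hfixg; exact hfixg
    have h9 : (cL l).testBit 2 = false := by
      apply cL_testBit
      intro f hf
      have hf0 := h2 f hf
      have hf4 : B z (N (gp (gp (gp (gp f))))) = 0 := by
        have e1 : N (gp (gp (gp (gp f)))) = act (gh ^ 4) (N f) := by
          rw [act_pow_succ, act_pow_succ, act_pow_succ, act_pow_succ, pow_zero, act_one, gh_N, gh_N,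
            gh_N, gh_N]
        rw [e1]
        conv_lhs => rw [← hg4]
        rw [B_act]; exact hf0
      apply chk_four_lam
      by_cases hne : gp (gp (gp (gp f))) = f
      · exact Or.inl hne
      · exact Or.inr (skew_of_fix hzz hz0 hne hf4 hf0)
    rw [h9] at h8
    exact absurd h8 (by decide)
  · intro hk0
    have hkk : k = 8 * (k / 8) := by omega
    have h6 : rho^[k] a = a := by
      rw [hkk]; exact rho_iter_eight _ hlt
    have h7 : v k = 0 := by rw [hkk, v_eight_mul]
    rw [h6, h7, Nat.zero_xor, Nat.xor_self] at hlab2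
    have h8 : l = [] := descL_nil (X_p.act γ') hlab2
    have h9 : gh ^ k = 1 := by rw [gh_pow_mod, hk0, pow_zero]
    rw [h8, h9] at hrot
    have h10 : γ' = 1 := by simpa [prodS] using hrot
    have h11 : ε⁻¹ * γ' * ε = δ * gh ^ k := by rw [hγ']; group
    rw [← h11, h10]
    group

theorem pow_fix {γ : G} {x : Fin 7 → ℝ} (h : actR γ x = x) (n : ℕ) : actR (γ ^ n) x = x := by
  induction n with
  | zero => rw [pow_zero, actR_one]
  | succ n ih => rw [pow_succ, actR_mul, h, ih]

/-- The subgroup acts freely on hyperbolic space. -/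
theorem Gam_free (γ : G) (hγ : γ ∈ Gam) (x : Fin 7 → ℝ) (hx : B x x = -1)
    (h : actR γ x = x) : γ = 1 := by
  have hγ' := hγ
  obtain ⟨k, δ, hδ, rfl, hk⟩ := hγ'
  -- powers
  have hpow : ∀ n : ℕ, (n * k) % 8 ≠ 4 := by
    intro n hn
    obtain ⟨k', δ', hδ', he, hk'⟩ := Subgroup.pow_mem Gam hγ n
    have hf := pow_fix h n
    rw [he] at hf
    have h1 := (main_step δ' hδ' k' hk' x hx hf).1
    apply h1
    have h2 : red ((δ * gh ^ k) ^ n) = red gh ^ (k * n) := by
      rw [map_pow, map_mul, (show red δ = 1 from hδ), one_mul, map_pow, ← pow_mul]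
    rw [he, map_mul, (show red δ' = 1 from hδ'), one_mul, map_pow, pow_inj_mod, orderOf_red_gh] at h2
    rw [h2, mul_comm]; exact hn
  have h1 := hpow 1
  have h2 := hpow 2
  have h4 := hpow 4
  have hk0 : k % 8 = 0 := by omega
  exact (main_step δ hδ k hk x hx h).2 hk0

end Pool.Agent.W575.Hyp6
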