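import Pool.Agent.W575.Hyp6.StabCard

/-!
# The subgroup and its index
-/

namespace Pool.Agent.W575.Hyp6

open Matrix

/-- Natural numbers with bitwise exclusive or as a group. -/
structure XN where
  /-- the value -/
  val : ℕ

theorem XN.ext' {a b : XN} (h : a.val = b.val) : a = b := by
  cases a; cases b; congr

instance : Mul XN := ⟨fun a b => ⟨a.val ^^^ b.val⟩⟩
instance : One XN := ⟨⟨0⟩⟩
instance : Inv XN := ⟨fun a => a⟩

theorem XN.mul_val (a b : XN) : (a * b).val = a.val ^^^ b.val := rfl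
theorem XN.one_val : (1 : XN).val = 0 := rfl
theorem XN.inv_val (a : XN) : (a⁻¹).val = a.val := rfl

instance : CommGroup XN :=
  { Group.ofLeftAxioms (G := XN)
      (fun a b c => XN.ext' (by simp only [XN.mul_val, Nat.xor_assoc]))
      (fun a => XN.ext' (by simp only [XN.mul_val, XN.one_val, Nat.zero_xor]))
      (fun a => XN.ext' (by simp only [XN.mul_val, XN.one_val, XN.inv_val, Nat.xor_self])) with
    mul_comm := fun a b => XN.ext' (by simp only [XN.mul_val, Nat.xor_comm]) }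

/-- The labels as group elements. -/
def thL (f : Fin 27) : XN := ⟨lam f⟩

theorem thL_sq (f : Fin 27) : thL f * thL f = 1 := XN.ext' (by simp [XN.mul_val, XN.one_val])

theorem thL_comm (f h : Fin 27) (_ : skew f h = true) : thL f * thL h = thL h * thL f :=
  mul_comm _ _

/-- The label of a point of the orbit. -/
noncomputable def L (x : Fin 7 → ℤ) : ℕ := (T thL x).val

theorem L_p : L p = 0 := by
  rw [L, T_p]; rfl

theorem L_s {x : Fin 7 → ℤ} (hx : X x) (f : Fin 27) : L (act (s f) x) = lam f ^^^ L x := by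
  rw [L, T_s thL thL_sq thL_comm hx, XN.mul_val]; rfl

theorem L_mul {δ : G} (hδ : δ ∈ Gam2) {x : Fin 7 → ℤ} (hx : X x) :
    L (act δ x) = L (act δ p) ^^^ L x := by
  rw [L, T_mul thL thL_sq thL_comm hδ x hx, XN.mul_val]; rfl

theorem lam_lt : ∀ f, lam f < 64 := by decide +kernel

theorem L_lt : ∀ x, X x → L x < 64 := by
  apply X.induction
  · rw [L_p]; norm_num
  · intro x f hx h
    rw [L_s hx]
    exact Nat.xor_lt_two_pow (n := 6) (lam_lt f) h

/-- The element of order eight. -/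
def gh : G := mkG gM gM_isom gM_pos

theorem gh_p : act gh p = p := gM_p

theorem gh_N (f : Fin 27) : act gh (N f) = N (gp f) := gM_N f

theorem gh_s (f : Fin 27) (x : Fin 7 → ℤ) : act gh (act (s f) x) = act (s (gp f)) (act gh x) := by
  rw [act_s, act_s, act_sub, act_smul, gh_N, ← gh_N, B_act]

theorem act_pow_succ (w : G) (k : ℕ) (x : Fin 7 → ℤ) :
    act (w ^ (k + 1)) x = act w (act (w ^ k) x) := by
  rw [pow_succ', act_mul]

theorem gh_pow : gh ^ 8 = 1 := by
  apply Subtype.ext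
  apply Units.ext
  have : ((gh ^ 8 : G) : GL7).1 = gM ^ 8 := by
    simp [gh, mkG]
  rw [this, gM_pow]
  simp

/-- The linear map on labels. -/
def rho (x : ℕ) : ℕ :=
  (if x.testBit 0 then 31 else 0) ^^^ (if x.testBit 1 then 11 else 0) ^^^
  (if x.testBit 2 then 23 else 0) ^^^ (if x.testBit 3 then 16 else 0) ^^^
  (if x.testBit 4 then 1 else 0) ^^^ (if x.testBit 5 then 32 else 0)

theorem rho_aux (i c a b : ℕ) : (if (a ^^^ b).testBit i then c else 0) =
    (if a.testBit i then c else 0) ^^^ (if b.testBit i then c else 0) := by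
  rw [Nat.testBit_xor]
  cases a.testBit i <;> cases b.testBit i <;> simp

theorem rho_xor (a b : ℕ) : rho (a ^^^ b) = rho a ^^^ rho b := by
  unfold rho
  simp only [rho_aux]
  ac_rfl

theorem rho_lam : ∀ f, rho (lam f) = lam (gp f) := by decide +kernel

theorem rho_zero : rho 0 = 0 := by decide

theorem rho_lt (x : ℕ) : rho x < 64 := by
  unfold rho
  have h : ∀ (i c : ℕ), c < 64 → (if x.testBit i then c else 0) < 2 ^ 6 := by
    intro i c hc
    split_ifs <;> omega
  have h2 := fun a b : ℕ => @Nat.xor_lt_two_pow a b 6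
  have := h2 _ _ (h2 _ _ (h2 _ _ (h2 _ _ (h2 _ _ (h 0 31 (by norm_num)) (h 1 11 (by norm_num))) (h 2 23 (by norm_num)))
    (h 3 16 (by norm_num))) (h 4 1 (by norm_num))) (h 5 32 (by norm_num))
  exact this

theorem L_gh : ∀ x, X x → L (act gh x) = rho (L x) := by
  apply X.induction
  · rw [gh_p, L_p]; decide
  · intro x f hx h
    rw [gh_s, L_s (hx.act gh), L_s hx, h, rho_xor, rho_lam]

theorem gh_pow_p (k : ℕ) : act (gh ^ k) p = p := by
  induction k with
  | zero => rw [pow_zero, act_one]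
  | succ k ih => rw [act_pow_succ, ih, gh_p]

theorem L_gh_pow (k : ℕ) {x : Fin 7 → ℤ} (hx : X x) : L (act (gh ^ k) x) = rho^[k] (L x) := by
  induction k with
  | zero => rw [pow_zero, act_one]; rfl
  | succ k ih => rw [act_pow_succ, L_gh _ (hx.act _), ih, Function.iterate_succ_apply']

theorem rho_iter_xor (k a b : ℕ) : rho^[k] (a ^^^ b) = rho^[k] a ^^^ rho^[k] b := by
  induction k with
  | zero => rfl
  | succ k ih => rw [Function.iterate_succ_apply', Function.iterate_succ_apply',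
      Function.iterate_succ_apply', ih, rho_xor]

/-- The cocycle. -/
def v : ℕ → ℕ
  | 0 => 0
  | k + 1 => rho (v k) ^^^ 3

theorem v_add (k l : ℕ) : v (k + l) = rho^[k] (v l) ^^^ v k := by
  induction k with
  | zero => simp [v]
  | succ k ih =>
    have : k + 1 + l = (k + l) + 1 := by ring
    rw [this, v, ih, v, rho_xor, Function.iterate_succ_apply', Nat.xor_assoc]

theorem v_lt (k : ℕ) : v k < 64 := by
  cases k with
  | zero => simp [v]
  | succ k => exact Nat.xor_lt_two_pow (n := 6) (rho_lt _) (by norm_num)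

theorem rho_eight : ∀ n < 64, rho^[8] n = n := by decide +kernel

theorem v_eight : v 8 = 0 := by decide +kernel

theorem v_add_eight (k : ℕ) : v (k + 8) = v k := by
  rw [add_comm, v_add, v_eight, rho_eight _ (v_lt k), Nat.xor_zero]

theorem v_eight_mul (k : ℕ) : v (8 * k) = 0 := by
  induction k with
  | zero => rfl
  | succ k ih => rw [mul_add, mul_one, v_add_eight, ih]

theorem conj_mem {δ : G} (hδ : δ ∈ Gam2) (w : G) : w * δ * w⁻¹ ∈ Gam2 := by
  have : Gam2.Normal := by unfold Gam2; infer_instance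
  exact this.conj_mem _ hδ _

theorem L_inv {δ : G} (hδ : δ ∈ Gam2) : L (act δ⁻¹ p) = L (act δ p) := by
  have h := L_mul hδ (X_p.act δ⁻¹)
  rw [act_act_inv, L_p] at h
  have h2 : (L (act δ p) ^^^ L (act δ⁻¹ p)) ^^^ L (act δ⁻¹ p) = L (act δ⁻¹ p) := by
    rw [← h, Nat.zero_xor]
  rw [Nat.xor_assoc, Nat.xor_self, Nat.xor_zero] at h2
  exact h2.symm

/-- The subgroup of index 414720. -/
def Gam : Subgroup G where
  carrier := {w | ∃ (k : ℕ) (δ : G), δ ∈ Gam2 ∧ w = δ * gh ^ k ∧ L (act δ p) = v k}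
  mul_mem' := by
    rintro _ _ ⟨k, δ, hδ, rfl, h⟩ ⟨l, ε, hε, rfl, h'⟩
    refine ⟨k + l, δ * (gh ^ k * ε * (gh ^ k)⁻¹), Subgroup.mul_mem _ hδ (conj_mem hε _), ?_, ?_⟩
    · rw [pow_add]; group
    · rw [act_mul, L_mul hδ (X_p.act _), h, act_mul, act_mul]
      have : act (gh ^ k)⁻¹ p = p := by
        conv_lhs => rw [← gh_pow_p k]
        rw [act_inv_act]
      rw [this, L_gh_pow k (X_p.act ε), h', v_add, Nat.xor_comm]
  one_mem' := ⟨0, 1, Subgroup.one_mem _, by simp, by rw [act_one, L_p]; rfl⟩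
  inv_mem' := by
    rintro _ ⟨k, δ, hδ, rfl, h⟩
    refine ⟨7 * k, gh ^ (7 * k) * δ⁻¹ * (gh ^ (7 * k))⁻¹, conj_mem (Subgroup.inv_mem _ hδ) _, ?_, ?_⟩
    · have h1 : gh ^ (7 * k) = (gh ^ k)⁻¹ := by
        rw [eq_inv_iff_mul_eq_one, ← pow_add, show 7 * k + k = 8 * k by ring, pow_mul, gh_pow,
          one_pow]
      rw [h1]
      group
    · rw [act_mul, act_mul]
      have : act (gh ^ (7 * k))⁻¹ p = p := by
        conv_lhs => rw [← gh_pow_p (7 * k)]
        rw [act_inv_act]
      rw [this, L_gh_pow _ (X_p.act _), L_inv hδ, h]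
      have h2 := v_add (7 * k) k
      rw [show 7 * k + k = 8 * k by ring, v_eight_mul] at h2
      have h3 : (rho^[7 * k] (v k) ^^^ v (7 * k)) ^^^ v (7 * k) = v (7 * k) := by
        rw [← h2, Nat.zero_xor]
      rw [Nat.xor_assoc, Nat.xor_self, Nat.xor_zero] at h3
      exact h3

theorem mem_Gam (w : G) : w ∈ Gam ↔ ∃ (k : ℕ) (δ : G), δ ∈ Gam2 ∧ w = δ * gh ^ k ∧
    L (act δ p) = v k := Iff.rfl

theorem gh_pow_mem_Stab (k : ℕ) : gh ^ k ∈ Stab := gh_pow_p k

theorem gh_pow_eq_one {k : ℕ} (h : gh ^ k ∈ Gam2) : gh ^ k = 1 := Stab_Gam2 (gh_pow_mem_Stab k) h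

theorem gh_four_ne : gh ^ 4 ≠ 1 := by
  intro h
  have h1 : act (gh ^ 4) (N 0) = N 0 := by rw [h, act_one]
  have h2 : act (gh ^ 4) (N 0) = N (gp (gp (gp (gp 0)))) := by
    rw [act_pow_succ, act_pow_succ, act_pow_succ, act_pow_succ, pow_zero, act_one, gh_N, gh_N,
      gh_N, gh_N]
  rw [h2] at h1
  exact absurd h1 (by decide +kernel)

theorem orderOf_gh : orderOf gh = 8 :=
  orderOf_eq_prime_pow (p := 2) (n := 2) gh_four_ne gh_pow

theorem orderOf_red_gh : orderOf (red gh) = 8 := by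
  refine orderOf_eq_prime_pow (p := 2) (n := 2) ?_ ?_
  · intro h
    rw [← map_pow] at h
    exact gh_four_ne (gh_pow_eq_one (k := 4) h)
  · rw [← map_pow]
    change red (gh ^ 8) = 1
    rw [gh_pow, map_one]

/-- The label homomorphism on the level two group. -/
noncomputable def lamHom : Gam2 →* XN where
  toFun w := T thL (act w.1 p)
  map_one' := by
    change T thL (act 1 p) = 1
    rw [act_one, T_p]
  map_mul' a b := by
    change T thL (act (a.1 * b.1) p) = _
    rw [act_mul, T_mul thL thL_sq thL_comm a.2 _ (X_p.act _)]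

theorem range_lamHom : (lamHom.range : Set XN) = {x : XN | x.val < 64} := by
  apply Set.Subset.antisymm
  · rintro _ ⟨w, rfl⟩
    exact L_lt _ (X_p.act _)
  · intro x hx
    have hf : ∀ f, (⟨lam f⟩ : XN) ∈ lamHom.range := by
      intro f
      refine ⟨⟨s f, s_mem f⟩, ?_⟩
      change T thL (act (s f) p) = _
      rw [T_s thL thL_sq thL_comm X_p, T_p, mul_one]
      rfl
    have hm : ∀ f (b : Bool), (⟨if b then lam f else 0⟩ : XN) ∈ lamHom.range := by
      intro f b
      cases b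
      · exact Subgroup.one_mem _
      · exact hf f
    have key : ∀ n < 64, n = (if n.testBit 0 then lam 0 else 0) ^^^ ((if n.testBit 1 then lam 1 else 0) ^^^
        ((if n.testBit 2 then lam 2 else 0) ^^^ ((if n.testBit 3 then lam 3 else 0) ^^^
        ((if n.testBit 4 then lam 4 else 0) ^^^ (if n.testBit 5 then lam 5 else 0))))) := by
      decide +kernel
    have hx' := key x.val hx
    have : x = ⟨if x.val.testBit 0 then lam 0 else 0⟩ * (⟨if x.val.testBit 1 then lam 1 else 0⟩ *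
        (⟨if x.val.testBit 2 then lam 2 else 0⟩ * (⟨if x.val.testBit 3 then lam 3 else 0⟩ *
        (⟨if x.val.testBit 4 then lam 4 else 0⟩ * ⟨if x.val.testBit 5 then lam 5 else 0⟩)))) :=
      XN.ext' hx'
    rw [this]
    exact Subgroup.mul_mem _ (hm _ _) (Subgroup.mul_mem _ (hm _ _) (Subgroup.mul_mem _ (hm _ _)
      (Subgroup.mul_mem _ (hm _ _) (Subgroup.mul_mem _ (hm _ _) (hm _ _)))))

theorem exists_label {n : ℕ} (hn : n < 64) : ∃ δ ∈ Gam2, L (act δ p) = n := by
  have : (⟨n⟩ : XN) ∈ (lamHom.range : Set XN) := by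
    rw [range_lamHom]; exact hn
  obtain ⟨w, hw⟩ := this
  exact ⟨w.1, w.2, congrArg XN.val hw⟩

theorem card_range : Nat.card lamHom.range = 64 := by
  have h1 : Nat.card lamHom.range = Nat.card {x : XN | x.val < 64} := by
    rw [← range_lamHom]; rfl
  rw [h1]
  let e : {x : XN | x.val < 64} ≃ Fin 64 :=
    { toFun := fun x => ⟨x.1.val, x.2⟩
      invFun := fun i => ⟨⟨i.val⟩, i.isLt⟩
      left_inv := fun x => rfl
      right_inv := fun i => rfl }
  rw [Nat.card_congr e]
  simp

theorem mem_Gam_Gam2 {w : G} (hw : w ∈ Gam2) : w ∈ Gam ↔ L (act w p) = 0 := by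
  constructor
  · rintro ⟨k, δ, hδ, rfl, h⟩
    have h1 : gh ^ k ∈ Gam2 := by
      have := Subgroup.mul_mem _ (Subgroup.inv_mem _ hδ) hw
      simpa using this
    have h2 := gh_pow_eq_one h1
    have h3 : 8 ∣ k := by
      rw [← orderOf_gh]; exact orderOf_dvd_of_pow_eq_one h2
    obtain ⟨m, rfl⟩ := h3
    rw [h2, mul_one, h, v_eight_mul]
  · intro h
    exact ⟨0, w, hw, by simp, h⟩

theorem relIndex_Gam2 : Gam.relIndex Gam2 = 64 := by
  have h1 : Gam.subgroupOf Gam2 = lamHom.ker := by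
    ext w
    rw [Subgroup.mem_subgroupOf, mem_Gam_Gam2 w.2, MonoidHom.mem_ker]
    constructor
    · intro h
      exact XN.ext' h
    · intro h
      exact congrArg XN.val h
  rw [Subgroup.relIndex, h1, Subgroup.index_ker, card_range]

theorem map_red : Gam.map red = Subgroup.zpowers (red gh) := by
  apply le_antisymm
  · rintro _ ⟨w, ⟨k, δ, hδ, rfl, h⟩, rfl⟩
    rw [map_mul, (show red δ = 1 from hδ), one_mul, map_pow]
    exact Subgroup.npow_mem_zpowers _ _
  · rw [Subgroup.zpowers_le]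
    obtain ⟨δ, hδ, h⟩ := exists_label (v_lt 1)
    refine ⟨δ * gh ^ 1, ⟨1, δ, hδ, rfl, h⟩, ?_⟩
    rw [map_mul, (show red δ = 1 from hδ), one_mul, pow_one]

theorem relIndex_Gam : Gam2.relIndex Gam = 8 := by
  rw [Gam2, Subgroup.relIndex_ker, map_red, Nat.card_zpowers, orderOf_red_gh]

theorem index_Gam2 : Gam2.index = 51840 := by
  have h : Subgroup.IsComplement' Stab Gam2 := by
    apply Subgroup.isComplement'_of_disjoint_and_mul_eq_univ
    · rw [Subgroup.disjoint_def]
      intro u hu hu2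
      exact Stab_Gam2 hu hu2
    · rw [Set.eq_univ_iff_forall]
      intro w
      obtain ⟨δ, hδ, h⟩ := exists_Gam2 (X_p.act w)
      have hu : δ⁻¹ * w ∈ Stab := by
        rw [mem_Stab, act_mul, ← h, act_inv_act]
      refine ⟨δ⁻¹ * w, hu, (δ⁻¹ * w)⁻¹ * δ * ((δ⁻¹ * w)⁻¹)⁻¹, conj_mem hδ _, ?_⟩
      group
  rw [h.index_eq_card, card_Stab]

theorem index_Gam : Gam.index = 414720 := by
  have h1 := Subgroup.relIndex_mul_index (H := Gam ⊓ Gam2) (K := Gam) inf_le_left
  have h2 := Subgroup.relIndex_mul_index (H := Gam ⊓ Gam2) (K := Gam2) inf_le_right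
  rw [Subgroup.inf_relIndex_left, relIndex_Gam] at h1
  rw [Subgroup.inf_relIndex_right, relIndex_Gam2, index_Gam2] at h2
  omega

end Pool.Agent.W575.Hyp6
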