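import Pool.Agent.W575.Hyp6.Descent

/-!
# The congruence subgroup of level two
-/

namespace Pool.Agent.W575.Hyp6

open Matrix

theorem even_sub_of_odd {x : Fin 7 → ℤ} (hx : ∀ i, Odd (x i)) (v : Fin 7 → ℤ) :
    Even (B x v - B v v) := by
  have h : ∀ i, Even ((x i - v i) * v i) := by
    intro i
    rcases Int.even_or_odd (v i) with hv | hv
    · exact hv.mul_left _
    · exact ((hx i).sub_odd hv).mul_right _
  have : B x v - B v v = -((x 0 - v 0) * v 0) + (x 1 - v 1) * v 1 + (x 2 - v 2) * v 2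
      + (x 3 - v 3) * v 3 + (x 4 - v 4) * v 4 + (x 5 - v 5) * v 5 + (x 6 - v 6) * v 6 := by
    simp only [B]; ring
  rw [this]
  exact ((((((h 0).neg.add (h 1)).add (h 2)).add (h 3)).add (h 4)).add (h 5)).add (h 6)

theorem odd_of_even_sub {x : Fin 7 → ℤ} (h : ∀ v, Even (B x v - B v v)) (i : Fin 7) :
    Odd (x i) := by
  have h1 := h (Pi.single i 1)
  obtain ⟨k, hk⟩ := h1
  fin_cases i <;> simp [B] at hk <;> first | exact ⟨k, by simp; omega⟩ | exact ⟨-k, by simp; omega⟩

theorem X.act {x : Fin 7 → ℤ} (hx : X x) (w : G) : X (act w x) := by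
  refine ⟨?_, ?_, ?_⟩
  · rw [B_act]; exact hx.norm
  · apply act_future _ _ _ hx.pos
    rw [hx.norm]; norm_num
  · apply odd_of_even_sub
    intro v
    rw [B_act_left, ← B_act w⁻¹ v v]
    exact even_sub_of_odd hx.odd _

/-- Reduction modulo two. -/
def red : G →* (Matrix (Fin 7) (Fin 7) (ZMod 2))ˣ :=
  (Units.map (((Int.castRingHom (ZMod 2)).mapMatrix :
    Matrix (Fin 7) (Fin 7) ℤ →+* Matrix (Fin 7) (Fin 7) (ZMod 2)) :
    Matrix (Fin 7) (Fin 7) ℤ →* Matrix (Fin 7) (Fin 7) (ZMod 2))).comp PosLor.subtype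

/-- The congruence subgroup of level two. -/
def Gam2 : Subgroup G := red.ker

theorem red_apply (w : G) (i j : Fin 7) : (red w).1 i j = ((w.1.1 i j : ℤ) : ZMod 2) := rfl

theorem mem_Gam2 (w : G) : w ∈ Gam2 ↔ ∀ i j, ((w.1.1 i j : ℤ) : ZMod 2) =
    (1 : Matrix (Fin 7) (Fin 7) (ZMod 2)) i j := by
  rw [Gam2, MonoidHom.mem_ker]
  constructor
  · intro h i j
    rw [← red_apply, h]; rfl
  · intro h
    apply Units.ext
    ext i j
    rw [red_apply, h]; rfl

theorem s_mem (f : Fin 27) : s f ∈ Gam2 := by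
  rw [mem_Gam2]
  intro i j
  have : ((s f).1.1 i j : ℤ) = (if i = j then 1 else 0) - 2 * N f i * (J ℤ *ᵥ N f) j := rfl
  rw [this, Matrix.one_apply]
  push_cast
  have h2 : (2 : ZMod 2) = 0 := rfl
  rw [h2]
  split_ifs <;> simp

theorem Gam2_act {u : G} (hu : u ∈ Gam2) (x : Fin 7 → ℤ) (i : Fin 7) :
    ((act u x i : ℤ) : ZMod 2) = (x i : ZMod 2) := by
  rw [mem_Gam2] at hu
  have h1 : act u x i = ∑ j, u.1.1 i j * x j := rfl
  rw [h1]
  push_cast
  simp only [hu, Matrix.one_apply]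
  simp

/-- The stabilizer of the base point. -/
def Stab : Subgroup G where
  carrier := {u | act u p = p}
  mul_mem' := by
    intro a b ha hb
    change act (a * b) p = p
    rw [act_mul, (show act b p = p from hb), (show act a p = p from ha)]
  one_mem' := by simp [act_one]
  inv_mem' := by
    intro a ha
    change act a⁻¹ p = p
    conv_lhs => rw [← (show act a p = p from ha)]
    rw [act_inv_act]

theorem mem_Stab (u : G) : u ∈ Stab ↔ act u p = p := Iff.rfl

theorem Stab_N {u : G} (hu : u ∈ Stab) (f : Fin 27) : ∃ h, act u (N f) = N h := by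
  apply classify
  · rw [B_act, N_norm]
  · rw [← (mem_Stab u).1 hu, B_act, B_N_p]

theorem N_mod_two : ∀ f h : Fin 27, (∀ i, (((N f i : ℤ) : ZMod 2)) = ((N h i : ℤ) : ZMod 2)) →
    f = h := by decide +kernel

theorem ext_B {x y : Fin 7 → ℤ} (h : ∀ f, B x (N f) = B y (N f)) (hp : B x p = B y p) :
    x = y := by
  have h0 := h 0
  have h1 := h 1
  have h2 := h 2
  have h3 := h 3
  have h4 := h 4
  have h5 := h 5
  simp [B, N] at h0 h1 h2 h3 h4 h5
  simp [B, p] at hp
  ext i
  fin_cases i <;> simp <;> omega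

theorem eq_one_of_N {u : G} (hu : u ∈ Stab) (h : ∀ f, act u (N f) = N f) : u = 1 := by
  apply act_ext
  intro x
  rw [act_one]
  have hu' : act u⁻¹ p = p := (mem_Stab _).1 (Stab.inv_mem hu)
  apply ext_B
  · intro f
    rw [B_act_left]
    have : act u⁻¹ (N f) = N f := by
      conv_lhs => rw [← h f]
      rw [act_inv_act]
    rw [this]
  · rw [B_act_left, hu']

theorem Stab_Gam2 {u : G} (hu : u ∈ Stab) (hu2 : u ∈ Gam2) : u = 1 := by
  apply eq_one_of_N hu
  intro f
  obtain ⟨h, hh⟩ := Stab_N hu f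
  have : f = h := by
    apply N_mod_two
    intro i
    rw [← hh, Gam2_act hu2]
  rw [hh, ← this]

theorem exists_closure : ∀ x, X x → ∃ δ ∈ Subgroup.closure (Set.range s), act δ p = x := by
  apply X.induction
  · exact ⟨1, Subgroup.one_mem _, act_one _⟩
  · rintro x f _ ⟨δ, hδ, h⟩
    refine ⟨s f * δ, Subgroup.mul_mem _ (Subgroup.subset_closure ⟨f, rfl⟩) hδ, ?_⟩
    rw [act_mul, h]

theorem closure_le : Subgroup.closure (Set.range s) ≤ Gam2 := by
  rw [Subgroup.closure_le]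
  rintro _ ⟨f, rfl⟩
  exact s_mem f

theorem exists_Gam2 {x : Fin 7 → ℤ} (hx : X x) : ∃ δ ∈ Gam2, act δ p = x := by
  obtain ⟨δ, hδ, h⟩ := exists_closure x hx
  exact ⟨δ, closure_le hδ, h⟩

theorem Gam2_le : Gam2 ≤ Subgroup.closure (Set.range s) := by
  intro w hw
  obtain ⟨δ, hδ, h⟩ := exists_closure (act w p) (X_p.act w)
  have h1 : δ⁻¹ * w = 1 := by
    apply Stab_Gam2
    · rw [mem_Stab, act_mul, ← h, act_inv_act]
    · exact Subgroup.mul_mem _ (Subgroup.inv_mem _ (closure_le hδ)) hw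
  have : w = δ := by
    rw [inv_mul_eq_one] at h1
    exact h1.symm
  rw [this]; exact hδ

/-- Elements of the level two group are determined by the image of the base point. -/
theorem Gam2_eq {a b : G} (ha : a ∈ Gam2) (hb : b ∈ Gam2) (h : act a p = act b p) : a = b := by
  have h1 : a⁻¹ * b = 1 := by
    apply Stab_Gam2
    · rw [mem_Stab, act_mul, ← h, act_inv_act]
    · exact Subgroup.mul_mem _ (Subgroup.inv_mem _ ha) hb
  rw [inv_mul_eq_one] at h1
  exact h1

section T
variable {D : Type*} [Group D] (th : Fin 27 → D)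
variable (hsq : ∀ f, th f * th f = 1)
  (hcomm : ∀ f h, skew f h = true → th f * th h = th h * th f)

include hsq hcomm in
theorem T_mul {δ : G} (hδ : δ ∈ Gam2) : ∀ x : Fin 7 → ℤ, X x →
    T th (act δ x) = T th (act δ p) * T th x := by
  have hδ' := Gam2_le hδ
  refine Subgroup.closure_induction (p := fun δ _ => ∀ x : Fin 7 → ℤ, X x →
    T th (act δ x) = T th (act δ p) * T th x) ?_ ?_ ?_ ?_ hδ'
  · rintro _ ⟨f, rfl⟩ x hx
    rw [T_s th hsq hcomm hx, T_s th hsq hcomm X_p, T_p, mul_one]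
  · intro x hx
    rw [act_one, act_one, T_p, one_mul]
  · intro a b _ _ ha hb x hx
    rw [act_mul, act_mul, ha _ (hx.act b), ha _ (X_p.act b), hb _ hx, mul_assoc]
  · intro a _ ha x hx
    have h1 := ha _ (hx.act a⁻¹)
    have h2 := ha _ (X_p.act a⁻¹)
    rw [act_act_inv] at h1 h2
    rw [T_p] at h2
    rw [h1, ← mul_assoc, mul_eq_one_iff_eq_inv.1 h2.symm]
    simp

end T

end Pool.Agent.W575.Hyp6
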