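import Pool.Agent.W575.Hyp6.Form

/-!
# The group of positive Lorentzian integral 7 x 7 matrices
-/

namespace Pool.Agent.W575.Hyp6

open Matrix

/-- Integral `7 × 7` matrices, invertible over `ℤ`. -/
abbrev GL7 := (Matrix (Fin 7) (Fin 7) ℤ)ˣ

/-- The zeroth basis vector. -/
def e0 : Fin 7 → ℤ := Pi.single 0 1

theorem B_e0_left (x : Fin 7 → ℤ) : B e0 x = - x 0 := by
  simp [B, e0]

theorem B_e0_right (x : Fin 7 → ℤ) : B x e0 = - x 0 := by
  simp [B, e0]

theorem mulVec_e0 (M : Matrix (Fin 7) (Fin 7) ℤ) : (M *ᵥ e0) 0 = M 0 0 := by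
  simp [e0]

theorem B_gl (g : GL7) (h : (g.1)ᵀ * J ℤ * g.1 = J ℤ) (x y : Fin 7 → ℤ) :
    B (g.1 *ᵥ x) (g.1 *ᵥ y) = B x y := B_mulVec _ h x y

theorem gl_inv_mulVec (g : GL7) (x : Fin 7 → ℤ) : g.1 *ᵥ ((g⁻¹).1 *ᵥ x) = x := by
  rw [mulVec_mulVec, ← Units.val_mul, mul_inv_cancel, Units.val_one, one_mulVec]

theorem B_gl_inv (g : GL7) (h : (g.1)ᵀ * J ℤ * g.1 = J ℤ) (x y : Fin 7 → ℤ) :
    B ((g⁻¹).1 *ᵥ x) y = B x (g.1 *ᵥ y) := by
  rw [← B_gl g h, gl_inv_mulVec]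

theorem gl_inv_isom (g : GL7) (h : (g.1)ᵀ * J ℤ * g.1 = J ℤ) :
    ((g⁻¹).1)ᵀ * J ℤ * (g⁻¹).1 = J ℤ := by
  apply isom_of_B
  intro x y
  rw [B_gl_inv g h, gl_inv_mulVec]

theorem gl_inv_zero (g : GL7) (h : (g.1)ᵀ * J ℤ * g.1 = J ℤ) : (g⁻¹).1 0 0 = g.1 0 0 := by
  have h1 := B_gl_inv g h e0 e0
  rw [B_e0_right, B_e0_left, mulVec_e0, mulVec_e0] at h1
  linarith

theorem gl_mul_pos (g h : GL7) (hg : (g.1)ᵀ * J ℤ * g.1 = J ℤ) (hh : (h.1)ᵀ * J ℤ * h.1 = J ℤ)
    (hg0 : 0 < g.1 0 0) (hh0 : 0 < h.1 0 0) : 0 < (g * h).1 0 0 := by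
  have h1 : B ((g⁻¹).1 *ᵥ e0) (h.1 *ᵥ e0) < 0 := by
    apply B_neg_of_future
    · rw [mulVec_e0, gl_inv_zero g hg]; exact hg0
    · rw [B_gl (g⁻¹) (gl_inv_isom g hg), B_e0_left]; simp [e0]
    · rw [mulVec_e0]; exact hh0
    · rw [B_gl h hh, B_e0_left]; simp [e0]
  rw [B_gl_inv g hg, mulVec_mulVec, B_e0_left, ← Units.val_mul, mulVec_e0] at h1
  linarith

/-- The group of positive Lorentzian integral `7 × 7` matrices: those integral matrices `M` with
`Mᵀ J M = J` and positive upper left entry. -/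
def PosLor : Subgroup GL7 where
  carrier := {g | (g.1)ᵀ * J ℤ * g.1 = J ℤ ∧ 0 < g.1 0 0}
  mul_mem' := by
    rintro a b ⟨ha, ha0⟩ ⟨hb, hb0⟩
    refine ⟨?_, gl_mul_pos a b ha hb ha0 hb0⟩
    apply isom_of_B
    intro x y
    rw [Units.val_mul, ← mulVec_mulVec, ← mulVec_mulVec, B_gl a ha, B_gl b hb]
  one_mem' := by
    constructor
    · simp
    · simp
  inv_mem' := by
    rintro a ⟨ha, ha0⟩
    refine ⟨gl_inv_isom a ha, ?_⟩
    rw [gl_inv_zero a ha]; exact ha0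

/-- The group as a type. -/
abbrev G := ↥PosLor

/-- The action on real vectors: matrix times vector. -/
def actR (w : G) (x : Fin 7 → ℝ) : Fin 7 → ℝ := (w.1.1.map (Int.cast : ℤ → ℝ)) *ᵥ x

/-- The action on integral vectors: matrix times vector. -/
def act (w : G) (x : Fin 7 → ℤ) : Fin 7 → ℤ := w.1.1 *ᵥ x

theorem act_mul (a b : G) (x : Fin 7 → ℤ) : act (a * b) x = act a (act b x) := by
  simp [act, mulVec_mulVec]

theorem act_one (x : Fin 7 → ℤ) : act 1 x = x := by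
  simp [act]

theorem act_inv_act (a : G) (x : Fin 7 → ℤ) : act a⁻¹ (act a x) = x := by
  rw [← act_mul, inv_mul_cancel, act_one]

theorem act_act_inv (a : G) (x : Fin 7 → ℤ) : act a (act a⁻¹ x) = x := by
  rw [← act_mul, mul_inv_cancel, act_one]

theorem act_inj (a : G) {x y : Fin 7 → ℤ} (h : act a x = act a y) : x = y := by
  rw [← act_inv_act a x, h, act_inv_act]

theorem act_add (a : G) (x y : Fin 7 → ℤ) : act a (x + y) = act a x + act a y := by
  simp [act, mulVec_add]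

theorem act_sub (a : G) (x y : Fin 7 → ℤ) : act a (x - y) = act a x - act a y := by
  simp [act, mulVec_sub]

theorem act_neg (a : G) (x : Fin 7 → ℤ) : act a (-x) = - act a x := by
  simp [act, mulVec_neg]

theorem act_smul (a : G) (c : ℤ) (x : Fin 7 → ℤ) : act a (c • x) = c • act a x := by
  unfold act
  exact mulVec_smul _ _ _

theorem act_zero (a : G) : act a 0 = 0 := by simp [act]

theorem act_sum {ι : Type*} (a : G) (s : Finset ι) (f : ι → Fin 7 → ℤ) :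
    act a (∑ i ∈ s, f i) = ∑ i ∈ s, act a (f i) := by
  classical
  induction s using Finset.induction_on with
  | empty => simp [act_zero]
  | insert b s hb ih => rw [Finset.sum_insert hb, Finset.sum_insert hb, act_add, ih]

theorem act_ext {a b : G} (h : ∀ x, act a x = act b x) : a = b := by
  apply Subtype.ext
  apply Units.ext
  apply Matrix.ext_of_mulVec_single
  intro i
  exact h _

theorem B_act (a : G) (x y : Fin 7 → ℤ) : B (act a x) (act a y) = B x y :=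
  B_gl a.1 a.2.1 x y

theorem B_act_left (a : G) (x y : Fin 7 → ℤ) : B (act a x) y = B x (act a⁻¹ y) := by
  rw [← B_act a x (act a⁻¹ y), act_act_inv]

theorem B_act_right (a : G) (x y : Fin 7 → ℤ) : B x (act a y) = B (act a⁻¹ x) y := by
  rw [B_comm, B_act_left, B_comm]

/-- The group maps future timelike vectors to future timelike vectors. -/
theorem act_future (a : G) (x : Fin 7 → ℤ) (hx : B x x < 0) (hx0 : 0 < x 0) :
    0 < (act a x) 0 := by
  have h1 : B (act a⁻¹ e0) x < 0 := by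
    rw [B_comm]
    apply B_neg_of_future _ _ hx0 hx
    · have := (a⁻¹).2.2
      rw [act, mulVec_e0]; exact this
    · rw [B_act, B_e0_left]; simp [e0]
  rw [← B_act a, act_act_inv, B_e0_left] at h1
  linarith

theorem sgn_eq (M : Matrix (Fin 7) (Fin 7) ℤ) (h : Mᵀ * J ℤ * M = J ℤ) :
    (J ℤ * Mᵀ * J ℤ) * M = 1 ∧ M * (J ℤ * Mᵀ * J ℤ) = 1 := det_unit M h

/-- Build a group element from a matrix. -/
def mkG (M : Matrix (Fin 7) (Fin 7) ℤ) (h : Mᵀ * J ℤ * M = J ℤ) (h0 : 0 < M 0 0) : G :=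
  ⟨⟨M, J ℤ * Mᵀ * J ℤ, (det_unit M h).2, (det_unit M h).1⟩, h, h0⟩

theorem act_mkG (M : Matrix (Fin 7) (Fin 7) ℤ) (h : Mᵀ * J ℤ * M = J ℤ) (h0 : 0 < M 0 0)
    (x : Fin 7 → ℤ) : act (mkG M h h0) x = M *ᵥ x := rfl

/-- The matrix of the reflection in a vector `v` of norm `1`. -/
def reflM (v : Fin 7 → ℤ) : Matrix (Fin 7) (Fin 7) ℤ :=
  Matrix.of fun i j => (if i = j then 1 else 0) - 2 * v i * (J ℤ *ᵥ v) j

theorem reflM_mulVec (v x : Fin 7 → ℤ) : reflM v *ᵥ x = x - (2 * B x v) • v := by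
  ext i
  have h1 : (reflM v *ᵥ x) i = ∑ j, ((if i = j then 1 else 0) - 2 * v i * (J ℤ *ᵥ v) j) * x j := rfl
  have h2 : B x v = ∑ j, x j * (J ℤ *ᵥ v) j := by
    rw [B_eq_dot]; rfl
  rw [h1, h2]
  simp only [sub_mul, Finset.sum_sub_distrib]
  congr 1
  · simp
  · simp only [Pi.smul_apply, smul_eq_mul, Finset.mul_sum, Finset.sum_mul]
    apply Finset.sum_congr rfl
    intro j _
    ring

theorem reflM_isom (v : Fin 7 → ℤ) (hv : B v v = 1) : (reflM v)ᵀ * J ℤ * reflM v = J ℤ := by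
  apply isom_of_B
  intro x y
  rw [reflM_mulVec, reflM_mulVec, B_sub_left, B_sub_right, B_sub_right, B_smul_left, B_smul_left,
    B_smul_right, B_smul_right, hv, B_comm v y]
  ring

theorem reflM_pos (v : Fin 7 → ℤ) : 0 < reflM v 0 0 := by
  have : reflM v 0 0 = 1 + 2 * v 0 ^ 2 := by
    simp [reflM, J, mulVec_diagonal]
    ring
  rw [this]
  positivity

/-- The reflection in a vector of norm `1`. -/
def refl (v : Fin 7 → ℤ) (hv : B v v = 1) : G := mkG (reflM v) (reflM_isom v hv) (reflM_pos v)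

theorem act_refl (v : Fin 7 → ℤ) (hv : B v v = 1) (x : Fin 7 → ℤ) :
    act (refl v hv) x = x - (2 * B x v) • v := by
  rw [refl, act_mkG, reflM_mulVec]

theorem refl_mul_self (v : Fin 7 → ℤ) (hv : B v v = 1) : refl v hv * refl v hv = 1 := by
  apply act_ext
  intro x
  rw [act_mul, act_one, act_refl, act_refl, B_sub_left, B_smul_left, hv]
  ext i
  simp
  ring

end Pool.Agent.W575.Hyp6
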