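import Pool.Agent.W575.Hyp6.Data

/-!
# Integral points of the fundamental polytope
-/

namespace Pool.Agent.W575.Hyp6

open Matrix

/-- The inequalities of the cone over the polytope. -/
structure InCone (z0 : ℤ) (a : Fin 6 → ℤ) : Prop where
  nonneg : ∀ i, 0 ≤ a i
  pair : ∀ i j, i ≠ j → a i + a j ≤ z0
  five : ∀ j, (∑ i, a i) - a j ≤ 2 * z0

theorem InCone.comp {z0 : ℤ} {a : Fin 6 → ℤ} (h : InCone z0 a) (σ : Equiv.Perm (Fin 6)) :
    InCone z0 (a ∘ σ) := by
  refine ⟨fun i => h.nonneg _, fun i j hij => h.pair _ _ (fun e => hij (σ.injective e)), ?_⟩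
  intro j
  have : ∑ i, (a ∘ σ) i = ∑ i, a i := Equiv.sum_comp σ a
  rw [this]
  exact h.five _

theorem cone_sorted (b0 b1 b2 b3 b4 b5 z : ℤ) (h0 : 1 ≤ b0) (h01 : b0 ≤ b1) (h12 : b1 ≤ b2)
    (h23 : b2 ≤ b3) (h34 : b3 ≤ b4) (h45 : b4 ≤ b5) (hz : b3 + b4 + b5 ≤ z)
    (hn : b0 ^ 2 + b1 ^ 2 + b2 ^ 2 + b3 ^ 2 + b4 ^ 2 + b5 ^ 2 = z ^ 2 - 3) :
    z = 3 ∧ b0 = 1 ∧ b1 = 1 ∧ b2 = 1 ∧ b3 = 1 ∧ b4 = 1 ∧ b5 = 1 := by
  have hzz : (b3 + b4 + b5) ^ 2 ≤ z ^ 2 := by
    apply pow_le_pow_left₀ (by linarith) hz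
  have e2 : b2 ^ 2 ≤ b3 * b4 := by nlinarith
  have e1 : b1 ^ 2 ≤ b3 * b4 := by nlinarith
  have e0 : b0 ^ 2 ≤ b3 * b4 := by nlinarith
  have f : b3 * b4 ≤ b4 * b5 := by nlinarith
  have hb : b4 * b5 + 2 * (b3 * b5) ≤ 3 := by nlinarith
  have g1 : b5 ≤ b4 * b5 := by nlinarith
  have g2 : b5 ≤ b3 * b5 := by nlinarith
  have hb5 : b5 = 1 := by linarith
  have : b4 = 1 := by linarith
  have : b3 = 1 := by linarith
  have : b2 = 1 := by linarith
  have : b1 = 1 := by linarith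
  have : b0 = 1 := by linarith
  subst_vars
  refine ⟨?_, rfl, rfl, rfl, rfl, rfl, rfl⟩
  nlinarith

theorem cone_base : ∀ (n : ℕ) (z0 : ℤ) (a : Fin 6 → ℤ), z0.toNat = n → 0 < z0 → Odd z0 →
    (∀ i, Odd (a i)) → ∑ i, a i ^ 2 = z0 ^ 2 - 3 → InCone z0 a → z0 = 3 ∧ ∀ i, a i = 1 := by
  intro n
  induction n using Nat.strong_induction_on with
  | _ n ih =>
    intro z0 a hn hz0 hodd ha hnorm hc
    -- sort
    obtain ⟨σ, hσ⟩ : ∃ σ : Equiv.Perm (Fin 6), Monotone (a ∘ σ) := ⟨Tuple.sort a, Tuple.monotone_sort a⟩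
    set b := a ∘ σ with hb
    have hbodd : ∀ i, Odd (b i) := fun i => ha _
    have hbnorm : ∑ i, b i ^ 2 = z0 ^ 2 - 3 := by
      rw [← hnorm]
      exact Equiv.sum_comp σ (fun i => a i ^ 2)
    have hbc : InCone z0 b := hc.comp σ
    suffices hs : z0 = 3 ∧ ∀ i, b i = 1 by
      refine ⟨hs.1, fun i => ?_⟩
      have := hs.2 (σ.symm i)
      simpa [hb] using this
    have h01 : b 0 ≤ b 1 := hσ (by decide)
    have h12 : b 1 ≤ b 2 := hσ (by decide)
    have h23 : b 2 ≤ b 3 := hσ (by decide)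
    have h34 : b 3 ≤ b 4 := hσ (by decide)
    have h45 : b 4 ≤ b 5 := hσ (by decide)
    have h0 : 1 ≤ b 0 := by
      obtain ⟨k, hk⟩ := hbodd 0
      have := hbc.nonneg 0
      omega
    rw [Fin.sum_univ_six] at hbnorm
    by_cases hcase : b 3 + b 4 + b 5 ≤ z0
    · obtain ⟨r, r0, r1, r2, r3, r4, r5⟩ := cone_sorted (b 0) (b 1) (b 2) (b 3) (b 4) (b 5) z0 h0 h01
        h12 h23 h34 h45 hcase hbnorm
      refine ⟨r, fun i => ?_⟩
      fin_cases i <;> assumption
    · push Not at hcase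
      exfalso
      have p35 := hbc.pair 3 5 (by decide)
      have p34 := hbc.pair 3 4 (by decide)
      have p45 := hbc.pair 4 5 (by decide)
      obtain ⟨k3, hk3⟩ := hbodd 3
      obtain ⟨k4, hk4⟩ := hbodd 4
      obtain ⟨k5, hk5⟩ := hbodd 5
      obtain ⟨kz, hkz⟩ := hodd
      obtain ⟨k0, hk0⟩ := hbodd 0
      obtain ⟨k1, hk1⟩ := hbodd 1
      obtain ⟨k2, hk2⟩ := hbodd 2
      set d := b 3 + b 4 + b 5 - z0 with hd
      have hdpos : 0 < d := by omega
      have key := ih ((z0 - d).toNat) (by omega) (z0 - d)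
        ![b 0, b 1, b 2, b 3 - d, b 4 - d, b 5 - d] rfl (by omega) (by
          exact ⟨kz - (k3 + k4 + k5 + 1 - kz), by omega⟩) (by
          intro i
          fin_cases i
          · exact ⟨k0, by simpa using hk0⟩
          · exact ⟨k1, by simpa using hk1⟩
          · exact ⟨k2, by simpa using hk2⟩
          · exact ⟨k3 - (k3 + k4 + k5 + 1 - kz), by simp; omega⟩
          · exact ⟨k4 - (k3 + k4 + k5 + 1 - kz), by simp; omega⟩
          · exact ⟨k5 - (k3 + k4 + k5 + 1 - kz), by simp; omega⟩) (by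
          simp [Fin.sum_univ_six]
          rw [hd]
          linarith [hbnorm]) (by
          have q01 := hbc.pair 0 1 (by decide)
          have q02 := hbc.pair 0 2 (by decide)
          have q03 := hbc.pair 0 3 (by decide)
          have q04 := hbc.pair 0 4 (by decide)
          have q05 := hbc.pair 0 5 (by decide)
          have q12 := hbc.pair 1 2 (by decide)
          have q13 := hbc.pair 1 3 (by decide)
          have q14 := hbc.pair 1 4 (by decide)
          have q15 := hbc.pair 1 5 (by decide)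
          have q23 := hbc.pair 2 3 (by decide)
          have q24 := hbc.pair 2 4 (by decide)
          have q25 := hbc.pair 2 5 (by decide)
          have s0 := hbc.five 0
          have s1 := hbc.five 1
          have s2 := hbc.five 2
          have s3 := hbc.five 3
          have s4 := hbc.five 4
          have s5 := hbc.five 5
          rw [Fin.sum_univ_six] at s0 s1 s2 s3 s4 s5
          refine ⟨?_, ?_, ?_⟩
          · intro i
            fin_cases i <;> simp <;> omega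
          · intro i j hij
            fin_cases i <;> fin_cases j <;> first | exact absurd rfl hij | (simp; omega)
          · intro j
            rw [Fin.sum_univ_six]
            fin_cases j <;> simp <;> omega)
      obtain ⟨r, hr⟩ := key
      have r0 := hr 0
      have r1 := hr 1
      have r2 := hr 2
      have r3 := hr 3
      have r4 := hr 4
      have r5 := hr 5
      simp at r0 r1 r2 r3 r4 r5
      omega

/-- The facet inequalities give the cone inequalities. -/
theorem inCone_of_facets (z : Fin 7 → ℤ) (h : ∀ f, B z (N f) ≤ 0) :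
    InCone (z 0) (fun i => z i.succ) := by
  have h0 := h 0
  have h1 := h 1
  have h2 := h 2
  have h3 := h 3
  have h4 := h 4
  have h5 := h 5
  have h6 := h 6
  have h7 := h 7
  have h8 := h 8
  have h9 := h 9
  have h10 := h 10
  have h11 := h 11
  have h12 := h 12
  have h13 := h 13
  have h14 := h 14
  have h15 := h 15
  have h16 := h 16
  have h17 := h 17
  have h18 := h 18
  have h19 := h 19
  have h20 := h 20
  have h21 := h 21
  have h22 := h 22
  have h23 := h 23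
  have h24 := h 24
  have h25 := h 25
  have h26 := h 26
  simp [B, N] at h0 h1 h2 h3 h4 h5 h6 h7 h8 h9 h10 h11 h12 h13 h14 h15 h16 h17 h18 h19 h20 h21 h22 h23 h24 h25 h26
  have e1 : (Fin.succ 0 : Fin 7) = 1 := rfl
  have e2 : (Fin.succ 1 : Fin 7) = 2 := rfl
  have e3 : (Fin.succ 2 : Fin 7) = 3 := rfl
  have e4 : (Fin.succ 3 : Fin 7) = 4 := rfl
  have e5 : (Fin.succ 4 : Fin 7) = 5 := rfl
  have e6 : (Fin.succ 5 : Fin 7) = 6 := rfl
  refine ⟨?_, ?_, ?_⟩
  · intro i
    fin_cases i <;> simp [e1, e2, e3, e4, e5, e6] <;> omega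
  · intro i j hij
    fin_cases i <;> fin_cases j <;> first | exact absurd rfl hij | (simp [e1, e2, e3, e4, e5, e6]; omega)
  · intro j
    rw [Fin.sum_univ_six]
    fin_cases j <;> simp [e1, e2, e3, e4, e5, e6] <;> omega

/-- The only integral vector of norm `-3` with odd coordinates in the cone is `p`. -/
theorem eq_p_of_facets (z : Fin 7 → ℤ) (hz : B z z = -3) (h0 : 0 < z 0) (hodd : ∀ i, Odd (z i))
    (h : ∀ f, B z (N f) ≤ 0) : z = p := by
  have hc := inCone_of_facets z h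
  have := cone_base _ (z 0) (fun i => z i.succ) rfl h0 (hodd 0) (fun i => hodd _) (by
    rw [Fin.sum_univ_six]
    have e1 : (Fin.succ 0 : Fin 7) = 1 := rfl
    have e2 : (Fin.succ 1 : Fin 7) = 2 := rfl
    have e3 : (Fin.succ 2 : Fin 7) = 3 := rfl
    have e4 : (Fin.succ 3 : Fin 7) = 4 := rfl
    have e5 : (Fin.succ 4 : Fin 7) = 5 := rfl
    have e6 : (Fin.succ 5 : Fin 7) = 6 := rfl
    rw [e1, e2, e3, e4, e5, e6]
    simp only [B] at hz
    linarith) hc
  obtain ⟨r, hr⟩ := this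
  ext i
  refine Fin.cases ?_ (fun j => ?_) i
  · rw [r]; rfl
  · rw [hr j]
    fin_cases j <;> rfl

/-- The elements of norm one having product `-1` with `p` are the facet normals. -/
theorem classify (r : Fin 7 → ℤ) (hr : B r r = 1) (hp : B r p = -1) : ∃ f, r = N f := by
  have hp' : r 1 + r 2 + r 3 + r 4 + r 5 + r 6 = 3 * r 0 - 1 := by
    simp [B, p] at hp
    linarith
  have hr' : r 1 ^ 2 + r 2 ^ 2 + r 3 ^ 2 + r 4 ^ 2 + r 5 ^ 2 + r 6 ^ 2 = r 0 ^ 2 + 1 := by
    simp only [B] at hr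
    linarith
  have cs : (r 1 + r 2 + r 3 + r 4 + r 5 + r 6) ^ 2 ≤
      6 * (r 1 ^ 2 + r 2 ^ 2 + r 3 ^ 2 + r 4 ^ 2 + r 5 ^ 2 + r 6 ^ 2) := by
    nlinarith [sq_nonneg (r 1 - r 2), sq_nonneg (r 1 - r 3), sq_nonneg (r 1 - r 4),
      sq_nonneg (r 1 - r 5), sq_nonneg (r 1 - r 6), sq_nonneg (r 2 - r 3), sq_nonneg (r 2 - r 4),
      sq_nonneg (r 2 - r 5), sq_nonneg (r 2 - r 6), sq_nonneg (r 3 - r 4), sq_nonneg (r 3 - r 5),
      sq_nonneg (r 3 - r 6), sq_nonneg (r 4 - r 5), sq_nonneg (r 4 - r 6), sq_nonneg (r 5 - r 6)]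
  rw [hp', hr'] at cs
  have hlo : 0 ≤ r 0 := by nlinarith
  have hhi : r 0 ≤ 2 := by nlinarith
  have sqlin : ∀ x : ℤ, x ≤ x ^ 2 ∧ -x ≤ x ^ 2 := by
    intro x
    constructor <;> nlinarith [sq_nonneg (2 * x - 1), sq_nonneg (2 * x + 1)]
  have key : ∀ c1 c2 c3 c4 c5 c6 c0 : ℤ, r 0 = c0 → r 1 = c1 → r 2 = c2 → r 3 = c3 → r 4 = c4 →
      r 5 = c5 → r 6 = c6 → r = ![c0, c1, c2, c3, c4, c5, c6] := by
    intro c1 c2 c3 c4 c5 c6 c0 h0 h1 h2 h3 h4 h5 h6
    ext i
    fin_cases i <;> simpa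
  have idem : ∀ x : ℤ, x ^ 2 ≤ x → x = 0 ∨ x = 1 := by
    intro x hx
    have h1 : 0 ≤ x := le_trans (sq_nonneg x) hx
    have h2 : x ≤ 1 := by nlinarith
    omega
  have idem' : ∀ x : ℤ, x ^ 2 ≤ -x → x = 0 ∨ x = -1 := by
    intro x hx
    have h1 : 0 ≤ -x := le_trans (sq_nonneg x) hx
    have h2 : -1 ≤ x := by nlinarith
    omega
  have s1 := sqlin (r 1)
  have s2 := sqlin (r 2)
  have s3 := sqlin (r 3)
  have s4 := sqlin (r 4)
  have s5 := sqlin (r 5)
  have s6 := sqlin (r 6)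
  have hcases : r 0 = 0 ∨ r 0 = 1 ∨ r 0 = 2 := by omega
  rcases hcases with h0 | h0 | h0
  · rw [h0] at hp' hr'
    have t1 := idem' (r 1) (by linarith)
    have t2 := idem' (r 2) (by linarith)
    have t3 := idem' (r 3) (by linarith)
    have t4 := idem' (r 4) (by linarith)
    have t5 := idem' (r 5) (by linarith)
    have t6 := idem' (r 6) (by linarith)
    rcases t1 with t1 | t1 <;> rcases t2 with t2 | t2 <;> rcases t3 with t3 | t3 <;>
      rcases t4 with t4 | t4 <;> rcases t5 with t5 | t5 <;> rcases t6 with t6 | t6 <;>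
      first
      | (exfalso; omega)
      | (rw [key _ _ _ _ _ _ _ h0 t1 t2 t3 t4 t5 t6]; decide)
  · rw [h0] at hp' hr'
    have t1 := idem (r 1) (by linarith)
    have t2 := idem (r 2) (by linarith)
    have t3 := idem (r 3) (by linarith)
    have t4 := idem (r 4) (by linarith)
    have t5 := idem (r 5) (by linarith)
    have t6 := idem (r 6) (by linarith)
    rcases t1 with t1 | t1 <;> rcases t2 with t2 | t2 <;> rcases t3 with t3 | t3 <;>
      rcases t4 with t4 | t4 <;> rcases t5 with t5 | t5 <;> rcases t6 with t6 | t6 <;>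
      first
      | (exfalso; omega)
      | (rw [key _ _ _ _ _ _ _ h0 t1 t2 t3 t4 t5 t6]; decide)
  · rw [h0] at hp' hr'
    have t1 := idem (r 1) (by linarith)
    have t2 := idem (r 2) (by linarith)
    have t3 := idem (r 3) (by linarith)
    have t4 := idem (r 4) (by linarith)
    have t5 := idem (r 5) (by linarith)
    have t6 := idem (r 6) (by linarith)
    rcases t1 with t1 | t1 <;> rcases t2 with t2 | t2 <;> rcases t3 with t3 | t3 <;>
      rcases t4 with t4 | t4 <;> rcases t5 with t5 | t5 <;> rcases t6 with t6 | t6 <;>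
      first
      | (exfalso; omega)
      | (rw [key _ _ _ _ _ _ _ h0 t1 t2 t3 t4 t5 t6]; decide)

end Pool.Agent.W575.Hyp6
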