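import Pool.Agent.W575.Hyp6.Gam

/-!
# The homomorphism onto the integers
-/

namespace Pool.Agent.W575.Hyp6

open Matrix

/-- The images of the reflections in the infinite dihedral group. -/
def thD (f : Fin 27) : DihedralGroup 0 :=
  if f = 5 then DihedralGroup.sr 0 else if (lam f).testBit 5 then DihedralGroup.sr 1 else 1

theorem thD_sq : ∀ f, thD f * thD f = 1 := by
  intro f
  unfold thD
  split_ifs
  · exact DihedralGroup.sr_mul_self 0
  · exact DihedralGroup.sr_mul_self 1
  · exact mul_one 1

theorem skew_five : ∀ f, skew 5 f = true → (lam f).testBit 5 = false := by decide +kernel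

theorem thD_comm : ∀ f h, skew f h = true → thD f * thD h = thD h * thD f := by
  intro f h hs
  have hs' := skew_symm f h hs
  unfold thD
  by_cases h1 : f = 5
  · subst h1
    have h3 : h ≠ 5 := by
      rintro rfl
      rw [skew_irrefl] at hs
      exact absurd hs (by decide)
    have h2 := skew_five h hs
    simp [h3, h2]
  · by_cases h2 : h = 5
    · subst h2
      have h3 := skew_five f hs'
      simp [h1, h3]
    · simp only [h1, h2, if_false]
      split_ifs <;> simp

theorem thD_gp : ∀ f, thD (gp f) = thD f := by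
  have h1 : ∀ f, (gp f = 5 ↔ f = 5) := by decide +kernel
  have h2 : ∀ f, (lam (gp f)).testBit 5 = (lam f).testBit 5 := by decide +kernel
  intro f
  unfold thD
  simp only [h1, h2]

/-- The value in the dihedral group. -/
noncomputable def TD (x : Fin 7 → ℤ) : DihedralGroup 0 := T thD x

theorem TD_p : TD p = 1 := T_p _

theorem TD_s {x : Fin 7 → ℤ} (hx : X x) (f : Fin 27) : TD (act (s f) x) = thD f * TD x :=
  T_s thD thD_sq thD_comm hx f

theorem TD_mul {δ : G} (hδ : δ ∈ Gam2) {x : Fin 7 → ℤ} (hx : X x) :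
    TD (act δ x) = TD (act δ p) * TD x := T_mul thD thD_sq thD_comm hδ x hx

theorem TD_gh : ∀ x, X x → TD (act gh x) = TD x := by
  apply X.induction
  · rw [gh_p]
  · intro x f hx h
    rw [gh_s, TD_s (hx.act gh), TD_s hx, h, thD_gp]

theorem TD_gh_pow (k : ℕ) {x : Fin 7 → ℤ} (hx : X x) : TD (act (gh ^ k) x) = TD x := by
  induction k with
  | zero => rw [pow_zero, act_one]
  | succ k ih => rw [act_pow_succ, TD_gh _ (hx.act _), ih]

/-- Is an element of the dihedral group a reflection? -/
def sgn : DihedralGroup 0 → Bool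
  | DihedralGroup.r _ => false
  | DihedralGroup.sr _ => true

theorem sgn_mul (a b : DihedralGroup 0) : sgn (a * b) = xor (sgn a) (sgn b) := by
  cases a <;> cases b <;> rfl

theorem sgn_thD : ∀ f, sgn (thD f) = (lam f).testBit 5 := by
  intro f
  unfold thD
  by_cases h1 : f = 5
  · subst h1; decide
  · rw [if_neg h1]
    split_ifs with h2
    · rw [h2]; rfl
    · have : (lam f).testBit 5 = false := by simpa using h2
      rw [this]; rfl

theorem sgn_TD : ∀ x, X x → sgn (TD x) = (L x).testBit 5 := by
  apply X.induction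
  · rw [TD_p, L_p]; rfl
  · intro x f hx h
    rw [TD_s hx, L_s hx, sgn_mul, h, Nat.testBit_xor, sgn_thD]

theorem v_lt' (k : ℕ) : v k < 32 := by
  have key : ∀ n < 32, rho n ^^^ 3 < 32 := by decide +kernel
  induction k with
  | zero => simp [v]
  | succ k ih => exact key _ ih

theorem v_testBit (k : ℕ) : (v k).testBit 5 = false := by
  apply Nat.testBit_lt_two_pow
  exact v_lt' k

theorem sgn_Gam {w : G} (hw : w ∈ Gam) : sgn (TD (act w p)) = false := by
  obtain ⟨k, δ, hδ, rfl, h⟩ := hw
  rw [act_mul, gh_pow_p, sgn_TD _ (X_p.act _), h, v_testBit]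

theorem TD_Gam_mul {w : G} (hw : w ∈ Gam) {x : Fin 7 → ℤ} (hx : X x) :
    TD (act w x) = TD (act w p) * TD x := by
  obtain ⟨k, δ, hδ, rfl, h⟩ := hw
  rw [act_mul, act_mul, gh_pow_p, TD_mul hδ (hx.act _), TD_gh_pow k hx]

/-- The rotation part. -/
def rotPart : DihedralGroup 0 → ℤ
  | DihedralGroup.r i => i
  | DihedralGroup.sr _ => 0

theorem rotPart_mul {a b : DihedralGroup 0} (ha : sgn a = false) (hb : sgn b = false) :
    rotPart (a * b) = rotPart a + rotPart b := by
  cases a with
  | sr i => simp [sgn] at ha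
  | r i =>
    cases b with
    | sr j => simp [sgn] at hb
    | r j => rfl

/-- The homomorphism from the subgroup to the integers. -/
noncomputable def nHom : Gam →* Multiplicative ℤ where
  toFun w := Multiplicative.ofAdd (rotPart (TD (act w.1 p)))
  map_one' := by
    change Multiplicative.ofAdd (rotPart (TD (act 1 p))) = 1
    rw [act_one, TD_p]
    rfl
  map_mul' a b := by
    change Multiplicative.ofAdd (rotPart (TD (act (a.1 * b.1) p))) = _
    rw [act_mul, TD_Gam_mul a.2 (X_p.act _), rotPart_mul (sgn_Gam a.2) (sgn_Gam b.2)]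
    rfl

/-- A word in the subgroup that maps to a generator. -/
def wd : G := s 5 * (s 10 * (s 4 * (s 3 * s 1)))

theorem wd_mem2 : wd ∈ Gam2 :=
  Subgroup.mul_mem _ (s_mem _) (Subgroup.mul_mem _ (s_mem _) (Subgroup.mul_mem _ (s_mem _)
    (Subgroup.mul_mem _ (s_mem _) (s_mem _))))

theorem wd_mem : wd ∈ Gam := by
  rw [mem_Gam_Gam2 wd_mem2, wd, act_mul, act_mul, act_mul, act_mul]
  have h1 := X_p.s 1
  have h2 := h1.s 3
  have h3 := h2.s 4
  have h4 := h3.s 10
  rw [L_s h4, L_s h3, L_s h2, L_s h1, L_s X_p, L_p]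
  decide +kernel

theorem nHom_wd : nHom ⟨wd, wd_mem⟩ = Multiplicative.ofAdd 1 := by
  change Multiplicative.ofAdd (rotPart (TD (act wd p))) = _
  rw [wd, act_mul, act_mul, act_mul, act_mul]
  have h1 := X_p.s 1
  have h2 := h1.s 3
  have h3 := h2.s 4
  have h4 := h3.s 10
  rw [TD_s h4, TD_s h3, TD_s h2, TD_s h1, TD_s X_p, TD_p]
  decide +kernel

theorem nHom_surj : Function.Surjective nHom := by
  intro m
  refine ⟨(⟨wd, wd_mem⟩ : Gam) ^ (Multiplicative.toAdd m), ?_⟩
  rw [map_zpow, nHom_wd]
  apply Multiplicative.toAdd.injective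
  simp

theorem infinite_ab : Infinite (Abelianization Gam) := by
  have h : Function.Surjective (Abelianization.lift nHom) := by
    intro m
    obtain ⟨w, hw⟩ := nHom_surj m
    exact ⟨Abelianization.of w, by simpa using hw⟩
  exact Infinite.of_surjective _ h

/-- The homomorphism to a finite cyclic group. -/
noncomputable def kHom (k : ℕ) : Gam →* Multiplicative (ZMod k) :=
  (AddMonoidHom.toMultiplicative (Int.castAddHom (ZMod k))).comp nHom

theorem kHom_surj (k : ℕ) : Function.Surjective (kHom k) := by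
  intro m
  obtain ⟨i, hi⟩ := ZMod.intCast_surjective (Multiplicative.toAdd m)
  obtain ⟨w, hw⟩ := nHom_surj (Multiplicative.ofAdd i)
  refine ⟨w, ?_⟩
  rw [kHom, MonoidHom.comp_apply, hw]
  apply Multiplicative.toAdd.injective
  simpa using hi

/-- The subgroup of index `414720 k`. -/
noncomputable def GamK (k : ℕ) : Subgroup G := ((kHom k).ker).map Gam.subtype

theorem GamK_le (k : ℕ) : GamK k ≤ Gam := by
  rintro _ ⟨w, _, rfl⟩
  exact w.2

theorem index_GamK (k : ℕ) : (GamK k).index = 414720 * k := by
  have h1 := Subgroup.relIndex_mul_index (GamK_le k)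
  have h2 : (GamK k).relIndex Gam = k := by
    have h3 : (GamK k).subgroupOf Gam = (kHom k).ker := by
      ext w
      rw [Subgroup.mem_subgroupOf]
      constructor
      · rintro ⟨y, hy, h⟩
        have : y = w := Subtype.ext h
        rw [← this]; exact hy
      · intro h
        exact ⟨w, h, rfl⟩
    rw [Subgroup.relIndex, h3, Subgroup.index_ker, MonoidHom.range_eq_top.2 (kHom_surj k),
      Subgroup.card_top]
    exact (Nat.card_congr Multiplicative.toAdd).trans (Nat.card_zmod k)
  rw [h2, index_Gam] at h1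
  rw [← h1, mul_comm]

end Pool.Agent.W575.Hyp6
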