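import Pool.Agent.W575.Hyp6.Cliques

/-!
# The stabilizer of the base point has order 51840
-/

namespace Pool.Agent.W575.Hyp6

open Matrix

/-- The sum of the normals over a list. -/
def sumN (l : List (Fin 27)) : Fin 7 → ℤ := (l.map N).sum

/-- The check for the divisibility by three. -/
def chk3 (l : List (Fin 27)) : Bool :=
  l.length != 6 || decide (∀ i : Fin 7, (3 : ℤ) ∣ (p i + (l.map (fun f => N f i)).sum))

set_option maxRecDepth 100000 in
theorem chk3_all : chk chk3 27 (List.finRange 27) [] = true := by decide +kernel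

theorem three_dvd {l : List (Fin 27)} (hlen : l.length = 6)
    (hl : l.Pairwise (fun a b => skew a b = true)) (i : Fin 7) :
    (3 : ℤ) ∣ (p i + (l.map (fun f => N f i)).sum) := by
  set t := (List.finRange 27).filter (fun x => decide (x ∈ l)) with ht
  have hperm : t.Perm l := sorted_perm (clique_nodup hl)
  have h1 := chk_sound chk3 27 (List.finRange 27) [] chk3_all (by simp) t List.filter_sublist
    (pairwise_of_clique hl ((List.nodup_finRange 27).filter _) (by
      intro x hx
      exact hperm.subset hx))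
  rw [List.append_nil] at h1
  simp only [chk3, Bool.or_eq_true, List.length_reverse, bne_iff_ne, ne_eq, decide_eq_true_eq] at h1
  rcases h1 with h1 | h1
  · exact absurd (hperm.length_eq.trans hlen) h1
  · have h2 := h1 i
    have h3 : (t.reverse.map (fun f => N f i)).sum = (l.map (fun f => N f i)).sum :=
      ((List.reverse_perm t).trans hperm |>.map _).sum_eq
    rwa [h3] at h2

theorem key_entry (M : Matrix (Fin 7) (Fin 7) ℤ) (i j : Fin 7) :
    (Mᵀ * J ℤ * M) i j = B (fun k => M k i) (fun k => M k j) := by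
  rw [B_eq_dot, Matrix.mul_assoc]
  rfl

theorem N_a_zero : ∀ i : Fin 6, N ⟨i.val, by omega⟩ 0 = 0 := by decide

theorem N_a_succ : ∀ i j : Fin 6, N ⟨i.val, by omega⟩ j.succ = if j = i then -1 else 0 := by decide

theorem B_N_a : ∀ i j : Fin 6, i < j → B (N ⟨i.val, by omega⟩) (N ⟨j.val, by omega⟩) = 0 := by
  decide

/-- Build the matrix from an ordered clique of six facets. -/
theorem exists_stab (f : Fin 6 → Fin 27) (hf : ∀ i j, i ≠ j → skew (f i) (f j) = true)
    (h3 : ∀ i, (3 : ℤ) ∣ (p i + ∑ j, N (f j) i)) :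
    ∃ u : G, u ∈ Stab ∧ ∀ i : Fin 6, act u (N ⟨i.val, by omega⟩) = N (f i) := by
  choose q hq using h3
  have hq' : (3 : ℤ) • q = p + ∑ j, N (f j) := by
    ext i
    simp only [Pi.smul_apply, smul_eq_mul, Pi.add_apply, Finset.sum_apply]
    rw [← hq i]
  have hBf : ∀ i j, B (N (f i)) (N (f j)) = if i = j then 1 else 0 := by
    intro i j
    split_ifs with h
    · rw [h]; exact N_norm _
    · exact (skew_iff _ _).1 (hf i j h)
  have hqN : ∀ j, B q (N (f j)) = 0 := by
    intro j
    have h1 : B ((3 : ℤ) • q) (N (f j)) = 0 := by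
      rw [hq', B_add_left, B_comm, B_N_p, B_sum_left]
      simp [hBf]
    rw [B_smul_left] at h1
    linarith
  have hqp : B q p = -3 := by
    have h1 : B ((3 : ℤ) • q) p = -9 := by
      rw [hq', B_add_left, B_p_p, B_sum_left]
      simp [B_N_p]
    rw [B_smul_left] at h1
    linarith
  have hqq : B q q = -1 := by
    have h1 : B ((3 : ℤ) • q) q = -3 := by
      rw [hq', B_add_left, B_comm, hqp, B_sum_left]
      simp [B_comm _ q, hqN]
    rw [B_smul_left] at h1
    linarith
  set M : Matrix (Fin 7) (Fin 7) ℤ := Matrix.of fun k i => Fin.cases (q k) (fun j => - N (f j) k) i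
    with hM
  have hcol0 : (fun k => M k 0) = q := rfl
  have hcolS : ∀ j : Fin 6, (fun k => M k j.succ) = - N (f j) := fun j => rfl
  have hiso : Mᵀ * J ℤ * M = J ℤ := by
    ext i j
    rw [key_entry]
    refine Fin.cases ?_ (fun i => ?_) i
    · refine Fin.cases ?_ (fun j => ?_) j
      · rw [hcol0, hqq]; simp [J]
      · rw [hcol0, hcolS, B_neg_right, hqN]
        simp [J, (Fin.succ_ne_zero j).symm]
    · refine Fin.cases ?_ (fun j => ?_) j
      · rw [hcol0, hcolS, B_neg_left, B_comm, hqN]
        simp [J]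
      · rw [hcolS, hcolS, B_neg_left, B_neg_right, hBf]
        simp only [J, Matrix.diagonal_apply, Fin.succ_inj]
        split_ifs with h
        · subst h
          fin_cases i <;> simp
        · simp
  have hpos : 0 < M 0 0 := by
    have h1 : M 0 0 = q 0 := rfl
    rw [h1]
    have h2 := hq 0
    have h3 : ∀ f : Fin 27, 0 ≤ N f 0 := by decide
    have h4 : 0 ≤ ∑ j, N (f j) 0 := Finset.sum_nonneg (fun j _ => h3 _)
    have h5 : p 0 = 3 := rfl
    omega
  have hmv : ∀ x : Fin 7 → ℤ, act (mkG M hiso hpos) x = x 0 • q - ∑ j : Fin 6, x j.succ • N (f j) := by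
    intro x
    ext k
    rw [act_mkG]
    have : (M *ᵥ x) k = ∑ i, M k i * x i := rfl
    rw [this, Fin.sum_univ_succ]
    simp only [Pi.sub_apply, Pi.smul_apply, smul_eq_mul, Finset.sum_apply, sub_eq_add_neg,
      ← Finset.sum_neg_distrib]
    congr 1
    · change q k * x 0 = _; ring
    · apply Finset.sum_congr rfl
      intro j _
      change - N (f j) k * x j.succ = _
      ring
  refine ⟨mkG M hiso hpos, ?_, ?_⟩
  · rw [mem_Stab, hmv]
    have h0 : p 0 = 3 := rfl
    have hS : ∀ j : Fin 6, p j.succ = 1 := by decide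
    rw [h0, hq']
    simp only [hS, one_smul]
    abel
  · intro i
    rw [hmv]
    rw [N_a_zero]
    simp [N_a_succ, ite_smul]

/-- The image index. -/
noncomputable def im (u : Stab) (f : Fin 27) : Fin 27 := (Stab_N u.2 f).choose

theorem im_spec (u : Stab) (f : Fin 27) : act u.1 (N f) = N (im u f) :=
  (Stab_N u.2 f).choose_spec

theorem N_inj : ∀ f h : Fin 27, N f = N h → f = h := by decide +kernel

theorem ext_B6 {x y : Fin 7 → ℤ} (h : ∀ f : Fin 6, B x (N ⟨f.val, by omega⟩) = B y (N ⟨f.val, by omega⟩))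
    (hp : B x p = B y p) : x = y := by
  have h0 := h 0
  have h1 := h 1
  have h2 := h 2
  have h3 := h 3
  have h4 := h 4
  have h5 := h 5
  simp [B, N] at h0 h1 h2 h3 h4 h5
  simp [B, p] at hp
  ext i
  fin_cases i <;> simp <;> omega

/-- The ordered clique attached to an element of the stabilizer. -/
noncomputable def toTuple (u : Stab) : {l : List (Fin 27) // l ∈ tuples} :=
  ⟨List.ofFn (fun i : Fin 6 => im u ⟨i.val, by omega⟩), by
    rw [mem_tuples]
    refine ⟨by simp, ?_⟩
    rw [List.pairwise_ofFn]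
    intro i j hij
    rw [skew_iff, ← im_spec, ← im_spec, B_act]
    exact B_N_a i j hij⟩

theorem toTuple_inj : Function.Injective toTuple := by
  intro u v h
  have h1 := congrArg Subtype.val h
  simp only [toTuple] at h1
  have h2 := List.ofFn_injective h1
  apply Subtype.ext
  apply act_ext
  intro x
  have hN : ∀ i : Fin 6, act u.1 (N ⟨i.val, by omega⟩) = act v.1 (N ⟨i.val, by omega⟩) := by
    intro i
    rw [im_spec, im_spec]
    exact congrArg N (congrFun h2 i)
  have hp' : act u.1 p = act v.1 p := by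
    rw [(mem_Stab _).1 u.2, (mem_Stab _).1 v.2]
  have key : act u.1⁻¹ (act v.1 x) = x := by
    apply ext_B6
    · intro f
      rw [← B_act_right, hN, B_act]
    · rw [← B_act_right, hp', B_act]
  rw [← key, act_act_inv, key]

theorem toTuple_surj : Function.Surjective toTuple := by
  rintro ⟨l, hl⟩
  have hl' := (mem_tuples _).1 hl
  obtain ⟨hlen, hpair⟩ := hl'
  obtain ⟨f, rfl⟩ : ∃ f : Fin 6 → Fin 27, l = List.ofFn f := by
    refine ⟨fun i => l.get (i.cast hlen.symm), ?_⟩
    have h1 := List.ofFn_congr hlen l.get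
    rw [List.ofFn_get] at h1
    exact h1
  have hsk : ∀ i j, i ≠ j → skew (f i) (f j) = true := by
    rw [List.pairwise_ofFn] at hpair
    intro i j hij
    rcases lt_or_gt_of_ne hij with h | h
    · exact hpair h
    · exact skew_symm _ _ (hpair h)
  have h3 : ∀ i, (3 : ℤ) ∣ (p i + ∑ j, N (f j) i) := by
    intro i
    have := three_dvd hlen hpair i
    rw [List.map_ofFn, List.sum_ofFn] at this
    exact this
  obtain ⟨u, hu, huf⟩ := exists_stab f hsk h3
  refine ⟨⟨u, hu⟩, ?_⟩
  apply Subtype.ext
  simp only [toTuple]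
  congr 1
  funext i
  apply N_inj
  rw [← im_spec, huf]

theorem card_Stab : Nat.card Stab = 51840 := by
  rw [Nat.card_congr (Equiv.ofBijective toTuple ⟨toTuple_inj, toTuple_surj⟩), ← length_tuples,
    ← List.toFinset_card_of_nodup nodup_tuples, Nat.card_congr (Equiv.subtypeEquivRight
    (fun l => (List.mem_toFinset (l := tuples) (a := l)).symm))]
  exact (Nat.card_eq_fintype_card).trans (Fintype.card_coe _)

end Pool.Agent.W575.Hyp6
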